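import Pool.Agent.N848.SM.Fin

/-!
# Schneider's conjecture for `p = 3`, all twists, and 83 percent of all cyclic cubic extensions of `ℚ(ω)`

`K = ℚ(ω)`, `ω² + ω + 1 = 0`, with ring of integers `ℤ[ω]`. The cyclic cubic extensions of `K` are the
fields `K(∛D)`, `D ∈ ℤ[ω]` cube-free and not a cube. For such a `D` let `Selmer D` be the set of the
cube-free `δ = 1` modulo `9` whose prime divisors divide `D` and such that for every prime `p` of `K`
which divides `D` and not `3` there is a power `D ^ t` such that `δ D ^ t` is a cube in the completion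
`K_p` (it represents the group of the classes in `Kˣ / Kˣ³` which are cubes at the prime above `3`,
are in the group generated by `D` at the primes which divide `D` and have valuation divisible by
three at all other primes).

Theorem. (1) Let `|Selmer D| = 3 ^ d`. For all cyclic extensions `L` of `K` of degree `3 ^ (k + 1)`
which contain `K(∛D)` and are unramified outside `3 D` (for instance `L = K(∛D)`), **all** integers
`r ≠ 0` and all `S` the rank of `Ш¹(O_{L,S}, ℤ_3(r))` is at most `(3 ^ (k + 1) - 1) d`, and if `d = 0`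
then `Ш¹(O_{L',S}, ℤ_3(r)) = 0` for all subfields `L'` of `L`.

(2) The natural density of the `D` with `d = 0` among **all** cube-free `D ∈ ℤ[ω]`, ordered by the
norm, is exactly `152 / 117 (1 - 3⁻¹) (1 - 3⁻³) (1 - 3⁻⁵) ⋯ = 0.8301…`.

Hence for at least 83 percent of the cube-free `D` all these groups are zero. There is no condition on
`D` at the prime above three, which may divide `D` and may split or ramify or be inert in `K(∛D)`.
(One has `d ≥ 1` for the `D` which are cubes there; they have density `1 / 39`.)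

Joint work (project SM, plan, algebra and assembly: helper848) of the seats helper362 (law of random
completions with one more equation), helper401 (mean values), helper865 (degenerate labels), helper78
(boxes), helper340 (sum over the boxes), helper519 (asymptotics), helper713 (labels modulo nine),
helper300 (density modulo nine), helper278 (proportion), helper678 (supplementary law of cubic
reciprocity), helper284 (number of the primary elements), helper655 (all cube-free elements), on top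
of the projects FF (helper883 and others), KF (helper419) and XK, XL (helper703 and others) on cubic
residue symbols.
-/

set_option autoImplicit false

namespace Pool.Agent.Results.MP_59f3ad_nt.AllCyclicCubicExtensions

/-- An algebraic closure of `ℚ`. -/
abbrev QBar : Type := AlgebraicClosure ℚ

/-- The absolute Galois group of `ℚ`. The one of a subfield `L` of `ℚ̄` is `L.fixingSubgroup`. -/
abbrev Gal : Type := QBar ≃ₐ[ℚ] QBar

/-! ### The Tate twists and the Tate–Shafarevich groups -/

/-- The `3`-adic cyclotomic character. -/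
noncomputable def cyc : Gal →* ℤ_[3]ˣ :=
  (cyclotomicCharacter QBar 3).comp (MulSemiringAction.toRingAut Gal QBar)

/-- The `3`-adic integer by which `σ` acts on `ℤ_3(r)`, that is, the `r`-th power of the value of
the cyclotomic character. -/
noncomputable def tate (r : ℤ) (σ : Gal) : ℤ_[3] := (((cyc σ) ^ r : ℤ_[3]ˣ) : ℤ_[3])

/-- The decomposition group of the place of `ℚ̄` given by the embedding `ι`. Its intersection with
the absolute Galois group of `L` is the decomposition group of a place of `L` above `p`, and all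
places are obtained from the embeddings `ι`. -/
def Dec {p : ℕ} [Fact p.Prime] (ι : QBar →ₐ[ℚ] PadicAlgCl p) : Set Gal :=
  {σ | ∃ τ : PadicAlgCl p ≃ₐ[ℚ_[p]] PadicAlgCl p, ∀ x, τ (ι x) = ι (σ x)}

/-- Its inertia group: the automorphisms which are trivial on the residue field. -/
def Inr {p : ℕ} [Fact p.Prime] (ι : QBar →ₐ[ℚ] PadicAlgCl p) : Set Gal :=
  {σ | ∃ τ : PadicAlgCl p ≃ₐ[ℚ_[p]] PadicAlgCl p, (∀ x, τ (ι x) = ι (σ x)) ∧
    ∀ z : PadicAlgCl p, ‖z‖ ≤ 1 → ‖τ z - z‖ < 1}

section

variable {L : IntermediateField ℚ QBar}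

/-- The continuous cocycles of the absolute Galois group of `L` with values in `ℤ_3(r)`. -/
structure IsCocycle (r : ℤ) (c : ↥L.fixingSubgroup → ℤ_[3]) : Prop where
  cont : Continuous c
  mul : ∀ σ τ, c (σ * τ) = c σ + tate r (σ : Gal) * c τ

/-- The restriction of `c` to the subset `S` is a coboundary with values in `ℤ_3(r)`. -/
def TrivialOn (r : ℤ) (S : Set Gal) (c : ↥L.fixingSubgroup → ℤ_[3]) : Prop :=
  ∃ z : ℤ_[3], ∀ σ : ↥L.fixingSubgroup, (σ : Gal) ∈ S → c σ = (tate r (σ : Gal) - 1) * z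

/-- The cocycles of the elements of the groups `Ш¹(O_{L,S}, ℤ_3(r))`: they vanish on the inertia
groups of the places prime to `3` (on which the cyclotomic character is trivial), because their
classes are unramified outside `S` and locally trivial at the places of `S`, and their restrictions
to the decomposition groups of the places above `3` are coboundaries. -/
structure InSha (r : ℤ) (c : ↥L.fixingSubgroup → ℤ_[3]) : Prop where
  away : ∀ (p : ℕ) [Fact p.Prime] (ι : QBar →ₐ[ℚ] PadicAlgCl p), p ≠ 3 →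
    ∀ σ : ↥L.fixingSubgroup, (σ : Gal) ∈ Inr ι → c σ = 0
  three : ∀ ι : QBar →ₐ[ℚ] PadicAlgCl 3, TrivialOn r (Dec ι) c

end

/-- `Ш¹(O_{L,S}, ℤ_3(r)) = 0` for all `S`. -/
def ShaZero (L : IntermediateField ℚ QBar) (r : ℤ) : Prop :=
  ∀ c : ↥L.fixingSubgroup → ℤ_[3], IsCocycle r c → InSha r c → TrivialOn r Set.univ c

/-- The rank of the `ℤ_3`-modules `Ш¹(O_{L,S}, ℤ_3(r))` is at most `m`: any `m + 1` elements are
linearly dependent. -/
def RankLE (L : IntermediateField ℚ QBar) (r : ℤ) (m : ℕ) : Prop :=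
  ∀ c : Fin (m + 1) → ↥L.fixingSubgroup → ℤ_[3], (∀ i, IsCocycle r (c i)) →
    (∀ i, InSha r (c i)) → ∃ x : Fin (m + 1) → ℤ_[3], (∃ i, x i ≠ 0) ∧
      TrivialOn r Set.univ fun σ => ∑ i, x i * c i σ

/-! ### The fields -/

/-- The ring of integers `ℤ[ω]`, `ω² = -1 - ω`, of `K = ℚ(ω)`. -/
abbrev OK : Type := QuadraticAlgebra ℤ (-1) (-1)

/-- The norm `a² - a b + b²` of `a + b ω`. -/
def nrmOK (z : OK) : ℤ := z.re ^ 2 - z.re * z.im + z.im ^ 2

/-- The element `a + b ω` of `ℤ[ω]` as an element of `ℚ̄`, `w` being the image of `ω`. -/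
noncomputable def emb (w : QBar) (z : OK) : QBar := z.re + z.im * w

/-- `L` is a cyclic extension of `K = ℚ(w)` of degree `3 ^ (k + 1)` which contains the cube roots of
`D` and is unramified at the primes of `K` which do not divide `3 D`. The absolute Galois group of
`K` consists of the automorphisms which fix `w`. -/
structure IsCyclicOver (w : QBar) (D : OK) (k : ℕ) (L : IntermediateField ℚ QBar) : Prop where
  base : w ∈ L
  root : ∃ s ∈ L, s ^ 3 = emb w D
  finite : FiniteDimensional ℚ L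
  cyclic : ∃ f : Gal → ZMod (3 ^ (k + 1)), (∀ x, ∃ σ : Gal, σ w = w ∧ f σ = x) ∧
    (∀ σ τ : Gal, σ w = w → τ w = w → f (σ * τ) = f σ + f τ) ∧
    ∀ σ : Gal, σ w = w → (f σ = 0 ↔ σ ∈ L.fixingSubgroup)
  unr : ∀ (p : ℕ) [Fact p.Prime] (ι : QBar →ₐ[ℚ] PadicAlgCl p), p ≠ 3 → ¬ ‖ι (emb w D)‖ < 1 →
    ∀ σ ∈ Inr ι, σ w = w → σ ∈ L.fixingSubgroup

/-- The field `K(∛D)`. -/
noncomputable def CubicField (w : QBar) (D : OK) : IntermediateField ℚ QBar :=
  IntermediateField.adjoin ℚ ({w} ∪ {s | s ^ 3 = emb w D})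

/-! ### The criterion -/

/-- `D` is cube-free (in particular not zero). -/
def CubeFree (D : OK) : Prop := ∀ x : OK, x ^ 3 ∣ D → IsUnit x

/-- `D` is not a cube. -/
def NotCube (D : OK) : Prop := ∀ y : OK, y ^ 3 ≠ D

/-- `x` is a cube in the completion at the prime `p` (which does not divide `3`): it is
`p ^ (3 a) u` with a cube `u ≠ 0` modulo `p`. -/
def IsCubeAt (p x : OK) : Prop :=
  ∃ (a : ℕ) (u y : OK), x = p ^ (3 * a) * u ∧ ¬ p ∣ u ∧ p ∣ u - y ^ 3

/-- The set of the cube-free `δ = 1` modulo `9` whose prime divisors divide `D` and such that for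
every prime `p` which divides `D` and not `3` there is a `t` such that `δ D ^ t` is a cube in the
completion at `p`. (Every prime of `K` which does not divide `3` is generated by exactly one prime
element `p = 1` modulo `3`.) -/
def Selmer (D : OK) : Set OK :=
  {δ | (9 : OK) ∣ δ - 1 ∧ CubeFree δ ∧ (∀ p : OK, Prime p → p ∣ δ → p ∣ D) ∧
    ∀ p : OK, Prime p → (3 : OK) ∣ p - 1 → p ∣ D → ∃ t : ℕ, IsCubeAt p (δ * D ^ t)}

/-- `Ш¹(O_{L',S}, ℤ_3(r)) = 0` for all `r ≠ 0`, all `S` and all subfields `L'` of all cyclic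
extensions `L` of `K` of degree a power of three which contain `K(∛D)` and are unramified outside
`3 D`; `D` is not a cube. -/
def Schneider (w : QBar) (D : OK) : Prop :=
  NotCube D ∧ ∀ (k : ℕ) (L L' : IntermediateField ℚ QBar), IsCyclicOver w D k L → L' ≤ L →
    ∀ r : ℤ, r ≠ 0 → ShaZero L' r

/-! ### The densities -/

/-- The number of the cube-free `D` with norm at most `X` and with the property `P`. -/
noncomputable def count (P : OK → Prop) (X : ℕ) : ℕ :=
  {D : OK | nrmOK D ≤ X ∧ CubeFree D ∧ P D}.ncard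

/-- The property `P` has the natural density `y` in the set of the cube-free elements. -/
def HasDensity (P : OK → Prop) (y : ℝ) : Prop :=
  Filter.Tendsto (fun X : ℕ => (count P X : ℝ) / (count (fun _ => True) X : ℝ)) Filter.atTop (nhds y)

/-! ### The proof -/

section proof

open Pool.Agent.N848.SM
open Pool.Agent.N848.Sch (PP)
open Pool.Agent.Y715.T.Gi (ev ev_apply Kc lam)
open Pool.Agent.Y692.QS (w)
open Pool.Agent.Y703.XK (c9)
open Pool.Agent.R419.KF (wt el wt_ne)
open Pool.Agent.N883.FF (ClU)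

variable {w₀ : QBar}

lemma emb_eq (hw : w₀ ^ 2 + w₀ + 1 = 0) (z : OK) : emb w₀ z = ev w₀ hw z := by
  unfold emb
  rw [ev_apply]

lemma emb_neg (z : OK) : emb w₀ (-z) = -emb w₀ z := by
  unfold emb
  rw [QuadraticAlgebra.re_neg, QuadraticAlgebra.im_neg]
  push_cast
  ring

lemma neg_cyclic {D : OK} {k : ℕ} {L : IntermediateField ℚ QBar} (h : IsCyclicOver w₀ D k L) :
    IsCyclicOver w₀ (-D) k L := by
  obtain ⟨h1, ⟨s, hs, h2⟩, h3, h4, h5⟩ := h
  refine ⟨h1, ⟨-s, neg_mem hs, ?_⟩, h3, h4, ?_⟩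
  · rw [emb_neg, ← h2]
    ring
  · intro p _ ι hp hlt
    refine h5 p ι hp ?_
    rwa [emb_neg, map_neg, norm_neg] at hlt

/-- the data of the library -/
lemma adm_of (hw : w₀ ^ 2 + w₀ + 1 = 0) {D : OK} {k : ℕ} {L : IntermediateField ℚ QBar}
    (h : IsCyclicOver w₀ D k L) : Adm hw D k L.fixingSubgroup := by
  obtain ⟨h1, ⟨s, hs, h2⟩, h3, h4, h5⟩ := h
  refine ⟨fun σ hσ => ?_, ⟨s, by rw [h2, emb_eq hw], fun σ hσ => ?_⟩, L.fixingSubgroup_isOpen, h4,
    ?_⟩
  · exact (IntermediateField.mem_fixingSubgroup_iff L σ).1 hσ _ h1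
  · exact (IntermediateField.mem_fixingSubgroup_iff L σ).1 hσ _ hs
  · intro p _ ι hp hlt
    refine h5 p ι hp ?_
    rwa [emb_eq hw]

lemma selmer_eq (D : OK) : Selmer D = selm D := rfl

/-- the factorization of the cube-free elements -/
lemma exists_pair {D : OK} (h : CubeFree D) : ∃ (i : ZMod 3) (k : ℕ) (M S : Finset OK),
    k < 3 ∧ ClU M S ∧ (D = ra i k (el M S) ∨ D = -ra i k (el M S)) := by
  obtain ⟨⟨b, i, k⟩, D', h3, hD⟩ := Pool.Agent.N655.SM.ex_el h
  have hk : (k : ℕ) < 3 := k.2
  have hcf : Pool.Agent.N655.SM.CF D' := by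
    refine (Pool.Agent.N655.SM.cf_mul (Pool.Agent.N655.SM.un_unit b i) (k := (k : ℕ))
      (by omega) h3).1 ?_
    have h1 : Pool.Agent.N655.SM.CF D := h
    rw [hD] at h1
    exact h1
  have hD0 : D' ≠ 0 := by
    rintro rfl
    obtain ⟨y, hy⟩ := h3
    rw [zero_sub] at hy
    have h2 : IsUnit (3 : OK) := IsUnit.of_mul_eq_one (-y) (by rw [mul_neg, ← hy, neg_neg])
    have h4 := isUnit_of_dvd_unit lam_three h2
    exact Pool.Agent.Y715.T.Gi.prime_lam.not_isUnit h4
  obtain ⟨M, S, hS, hM, rfl⟩ := Pool.Agent.R419.KF.ex_pair h3 ⟨hD0, hcf⟩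
  refine ⟨i, k, M, S, hk, ⟨hS, hM⟩, ?_⟩
  rw [hD]
  unfold Pool.Agent.N655.SM.el Pool.Agent.N655.SM.un ra
  cases b
  · left
    simp only [Bool.false_eq_true, if_false, one_mul]
    rfl
  · right
    simp only [if_true, neg_mul, one_mul]
    rfl

lemma not_trivial {i : ZMod 3} {k : ℕ} {M S : Finset OK} (hk : k < 3) (hMS : ClU M S)
    (h : NotCube (ra i k (el M S))) : Nonempty S ∨ i ≠ 0 ∨ (k : ZMod 3) ≠ 0 := by
  by_contra hcon
  push Not at hcon
  obtain ⟨h1, h2, h3⟩ := hcon
  have hk0 : k = 0 := by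
    rw [ZMod.natCast_eq_zero_iff] at h3
    omega
  have hS : S = ∅ := by
    rw [Finset.eq_empty_iff_forall_notMem]
    intro a ha
    exact h1.elim ⟨a, ha⟩
  subst hk0 h2 hS
  have hM : M = ∅ := Finset.subset_empty.1 hMS.2
  subst hM
  apply h 1
  unfold ra el
  simp

/-- the rank bound -/
lemma rank_core (hw : w₀ ^ 2 + w₀ + 1 = 0) {i : ZMod 3} {q : ℕ} {M S : Finset OK} (hq : q < 3)
    (hMS : ClU M S) (hnc : NotCube (ra i q (el M S))) {d : ℕ}
    (hd : (Selmer (ra i q (el M S))).ncard = 3 ^ d) {k : ℕ} {L : IntermediateField ℚ QBar}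
    (h : IsCyclicOver w₀ (ra i q (el M S)) k L) {r : ℤ} (hr : r ≠ 0) :
    RankLE L r ((3 ^ (k + 1) - 1) * d) := by
  classical
  have hsol : (Sol i q (fun j : S => (j : OK)) (fun j => wt M j)).ncard = 3 ^ d := by
    rw [← selm_card (pp_S hMS) (fun j => wt_ne M j) i q, DD_el hMS.2]
    exact hd
  intro c hc hsha
  obtain ⟨x, hx, y, hy⟩ := (adm_of hw h).rank (pp_S hMS) (fun j => wt_ne M j)
    (DD_el hMS.2 i q).symm (not_trivial hq hMS hnc) hsol.le hr (Nat.lt_succ_self _)
    (fun l => (hc l).cont) (fun l σ τ => (hc l).mul σ τ)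
    (fun l p _ ι hp σ hσ => (hsha l).away p ι hp σ hσ) (fun l ι => (hsha l).three ι)
  exact ⟨x, hx, y, fun σ _ => hy σ⟩

/-- the vanishing over `L` -/
lemma sha_zero (hw : w₀ ^ 2 + w₀ + 1 = 0) {D : OK} {k : ℕ} {L : IntermediateField ℚ QBar}
    (h : IsCyclicOver w₀ D k L) {r : ℤ} (hr : r ≠ 0) (hL : RankLE L r 0) : ShaZero L r := by
  intro c hc hsha
  obtain ⟨x, ⟨i, hi⟩, y, hy⟩ := hL (fun _ => c) (fun _ => hc) fun _ => hsha
  have hx : x 0 ≠ 0 := by
    have : i = 0 := Subsingleton.elim (α := Fin 1) _ _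
    rwa [this] at hi
  obtain ⟨z, hz⟩ := tfQ hw (n := 2 * 3 ^ (k + 1)) (by positivity) (adm_of hw h).pow hr
    (fun ι => hsha.three ι) hx (y := y) (fun σ => by
      have h1 : ∑ i : Fin (0 + 1), x i * c σ = (tate r (σ : Gal) - 1) * y := hy σ trivial
      have h2 : ∑ i : Fin (0 + 1), x i * c σ = x 0 * c σ := by
        rw [Fin.sum_univ_succ, Fin.sum_univ_zero, add_zero]
      rw [h2] at h1
      exact h1)
  exact ⟨z, fun σ _ => hz σ⟩

/-- the vanishing over the subfields -/
lemma sha_sub (hw : w₀ ^ 2 + w₀ + 1 = 0) {D : OK} {k : ℕ} {L L' : IntermediateField ℚ QBar}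
    (h : IsCyclicOver w₀ D k L) (hle : L' ≤ L) {r : ℤ} (hr : r ≠ 0) (hL : ShaZero L r) :
    ShaZero L' r := by
  intro c hc hsha
  have h1 : L.fixingSubgroup ≤ L'.fixingSubgroup := IntermediateField.fixingSubgroup_antitone hle
  obtain ⟨y, hy⟩ := hL (fun σ => c ⟨σ, h1 σ.2⟩)
    ⟨hc.cont.comp (Continuous.subtype_mk continuous_subtype_val _),
      fun σ τ => hc.mul ⟨σ, h1 σ.2⟩ ⟨τ, h1 τ.2⟩⟩
    ⟨fun p _ ι hp σ hσ => hsha.away p ι hp ⟨σ, h1 σ.2⟩ hσ, fun ι => by
      obtain ⟨z, hz⟩ := hsha.three ι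
      exact ⟨z, fun σ hσ => hz ⟨σ, h1 σ.2⟩ hσ⟩⟩
  obtain ⟨z, hz⟩ := shaN hw h1 hr (n := 2 * 3 ^ (k + 1)) (by positivity) (adm_of hw h).pow c
    hc.mul (fun ι => hsha.three ι) ⟨y, fun σ => hy σ trivial⟩
  exact ⟨z, fun σ _ => hz σ⟩

/-- **The ranks.** -/
theorem ranks (hw : w₀ ^ 2 + w₀ + 1 = 0) {D : OK} {d : ℕ} (hcf : CubeFree D) (hnc : NotCube D)
    (hd : (Selmer D).ncard = 3 ^ d) {k : ℕ} {L : IntermediateField ℚ QBar}
    (h : IsCyclicOver w₀ D k L) {r : ℤ} (hr : r ≠ 0) :
    RankLE L r ((3 ^ (k + 1) - 1) * d) ∧ (d = 0 → ∀ L' ≤ L, ShaZero L' r) := by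
  have key : RankLE L r ((3 ^ (k + 1) - 1) * d) := by
    obtain ⟨i, q, M, S, hq, hMS, rfl | rfl⟩ := exists_pair hcf
    · exact rank_core hw hq hMS hnc hd h hr
    · refine rank_core hw (i := i) hq hMS (fun y hy => hnc (-y) ?_) ?_ ?_ hr
      · have e : (-y) ^ 3 = -(y ^ 3) := by ring
        rw [e, hy]
      · rw [selmer_eq] at hd ⊢
        rwa [selm_neg] at hd
      · have := neg_cyclic h
        rwa [neg_neg] at this
  refine ⟨key, ?_⟩
  rintro rfl L' hle
  rw [mul_zero] at key
  exact sha_sub hw h hle hr (sha_zero hw h hr key)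

/-- the Kummer character of a radicand is not trivial -/
lemma kc_of (hw : w₀ ^ 2 + w₀ + 1 = 0) {D : OK} (hcf : CubeFree D) (hnc : NotCube D)
    {χ : Pool.Agent.Y715.T.Gi.GK w₀ → ZMod 3} (hχ : Kc hw D χ) : ∃ σ, χ σ ≠ 0 := by
  classical
  obtain ⟨i, q, M, S, hq, hMS, rfl | rfl⟩ := exists_pair hcf
  · exact kc_neM (pp_S hMS) (fun j => wt_ne M j) (not_trivial hq hMS hnc)
      (by rw [DD_el hMS.2]; exact hχ)
  · have hnc' : NotCube (ra i q (el M S)) := fun y hy => hnc (-y) (by
      have e : (-y) ^ 3 = -(y ^ 3) := by ring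
      rw [e, hy])
    have hχ' : Kc hw (ra i q (el M S)) χ := by
      refine Pool.Agent.Y715.T.Sel.kc_unit (u := -1) ?_ (Or.inr rfl) ?_
      · rw [← DD_el hMS.2]
        exact DD_ne (pp_S hMS) _ _ _
      · rw [neg_one_mul]
        exact hχ
    exact kc_neM (pp_S hMS) (fun j => wt_ne M j) (not_trivial hq hMS hnc')
      (by rw [DD_el hMS.2]; exact hχ')

lemma ne_zero_of {D : OK} (hcf : CubeFree D) : D ≠ 0 := by
  rintro rfl
  have h1 := hcf 0 (dvd_zero _)
  exact not_isUnit_zero h1

/-- the absolute Galois group of `K(∛D)` -/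
lemma fix_cubic (hw : w₀ ^ 2 + w₀ + 1 = 0) {D : OK} {s : QBar} (hs : s ^ 3 = emb w₀ D) :
    (CubicField w₀ D).fixingSubgroup = fixG w₀ s := by
  ext σ
  constructor
  · intro h
    rw [IntermediateField.mem_fixingSubgroup_iff] at h
    exact ⟨h _ (IntermediateField.subset_adjoin ℚ _ (Or.inl rfl)),
      h _ (IntermediateField.subset_adjoin ℚ _ (Or.inr hs))⟩
  · intro hσ
    rw [IntermediateField.mem_fixingSubgroup_iff]
    intro x hx
    have h1 : CubicField w₀ D ≤ IntermediateField.fixedField (Subgroup.zpowers σ) := by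
      unfold CubicField
      rw [IntermediateField.adjoin_le_iff]
      have key : ∀ y : QBar, σ y = y →
          y ∈ (IntermediateField.fixedField (Subgroup.zpowers σ) : IntermediateField ℚ QBar) := by
        intro y hy
        rw [IntermediateField.mem_fixedField_iff]
        intro τ hτ
        obtain ⟨k, rfl⟩ := hτ
        have h2 : σ ∈ MulAction.stabilizer Gal y := hy
        exact (MulAction.stabilizer Gal y).zpow_mem h2 k
      rintro y (rfl | hy)
      · exact key y hσ.1
      · apply key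
        have hy' : y ^ 3 = emb w₀ D := hy
        obtain ⟨n, hn⟩ := Pool.Agent.Y715.T.Gi.cube_eq hw (a := y) (b := s) (by rw [hy', hs])
        rw [hn, map_mul, map_pow, hσ.1, hσ.2]
    exact (IntermediateField.mem_fixedField_iff _ x).1 (h1 hx) σ (Subgroup.mem_zpowers σ)

/-- the fields `K(∛D)` -/
theorem cubic_cyclic (hw : w₀ ^ 2 + w₀ + 1 = 0) {D : OK} (hcf : CubeFree D) (hnc : NotCube D) :
    IsCyclicOver w₀ D 0 (CubicField w₀ D) := by
  obtain ⟨s, hs⟩ : ∃ s : QBar, s ^ 3 = emb w₀ D := IsAlgClosed.exists_pow_nat_eq _ (by norm_num)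
  have hadm := adm_cubic (hw := hw) (ne_zero_of hcf) (by rw [hs, emb_eq hw])
    fun χ hχ => kc_of hw hcf hnc hχ
  rw [← fix_cubic hw hs] at hadm
  refine ⟨IntermediateField.subset_adjoin ℚ _ (Or.inl rfl),
    ⟨s, IntermediateField.subset_adjoin ℚ _ (Or.inr hs), hs⟩, ?_, hadm.cyc, ?_⟩
  · exact (InfiniteGalois.isOpen_iff_finite _).1 hadm.opn
  · intro p _ ι hp hlt
    rw [emb_eq hw] at hlt
    exact hadm.unr p ι hp hlt

/-- the solutions form a vector space -/
lemma exists_dim {D : OK} (hcf : CubeFree D) : ∃ d, (Selmer D).ncard = 3 ^ d := by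
  classical
  have key : ∀ (i : ZMod 3) (q : ℕ) (M S : Finset OK), ClU M S →
      ∃ d, (Selmer (ra i q (el M S))).ncard = 3 ^ d := by
    intro i q M S hMS
    have h1 : (Selmer (ra i q (el M S))).ncard =
        (Sol i q (fun j : S => (j : OK)) (fun j => wt M j)).ncard := by
      rw [← selm_card (pp_S hMS) (fun j => wt_ne M j) i q, DD_el hMS.2]
      rfl
    have hlin : ∀ v, v ∈ Sol i q (fun j : S => (j : OK)) (fun j => wt M j) ↔
        (∀ j : S, ∑ l : S, wt M l * Pool.Agent.Y715.T.Rec.cs (j : OK) l * (v l - v j) =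
          lbl i q (j : OK) * v j) ∧
        ∑ j : S, wt M j * Pool.Agent.N883.FF.nq (j : OK) * v j = 0 ∧
        ∑ j : S, wt M j * mq (j : OK) * v j = 0 := by
      intro v
      unfold Sol
      rw [Set.mem_ofPred_eq, nine_lab (pp_S hMS)]
    let V : Submodule (ZMod 3) (S → ZMod 3) :=
      { carrier := Sol i q (fun j : S => (j : OK)) (fun j => wt M j)
        zero_mem' := one_sol i q
        add_mem' := by
          intro v v' h h'
          rw [hlin] at h h' ⊢
          obtain ⟨a1, a2, a3⟩ := h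
          obtain ⟨b1, b2, b3⟩ := h'
          refine ⟨fun j => ?_, ?_, ?_⟩
          · have e1 : ∑ l : S, wt M l * Pool.Agent.Y715.T.Rec.cs (j : OK) l *
                ((v + v') l - (v + v') j) =
                ∑ l : S, wt M l * Pool.Agent.Y715.T.Rec.cs (j : OK) l * (v l - v j) +
                ∑ l : S, wt M l * Pool.Agent.Y715.T.Rec.cs (j : OK) l * (v' l - v' j) := by
              rw [← Finset.sum_add_distrib]
              refine Finset.sum_congr rfl fun l _ => ?_
              rw [Pi.add_apply, Pi.add_apply]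
              ring
            rw [e1, a1 j, b1 j, Pi.add_apply]
            ring
          · have e1 : ∀ f : OK → ZMod 3, ∑ j : S, wt M j * f j * (v + v') j =
                ∑ j : S, wt M j * f j * v j + ∑ j : S, wt M j * f j * v' j := by
              intro f
              rw [← Finset.sum_add_distrib]
              refine Finset.sum_congr rfl fun l _ => ?_
              rw [Pi.add_apply]
              ring
            rw [e1 Pool.Agent.N883.FF.nq, a2, b2, add_zero]
          · have e1 : ∀ f : OK → ZMod 3, ∑ j : S, wt M j * f j * (v + v') j =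
                ∑ j : S, wt M j * f j * v j + ∑ j : S, wt M j * f j * v' j := by
              intro f
              rw [← Finset.sum_add_distrib]
              refine Finset.sum_congr rfl fun l _ => ?_
              rw [Pi.add_apply]
              ring
            rw [e1 mq, a3, b3, add_zero]
        smul_mem' := by
          intro c v h
          rw [hlin] at h ⊢
          obtain ⟨a1, a2, a3⟩ := h
          refine ⟨fun j => ?_, ?_, ?_⟩
          · have e1 : ∑ l : S, wt M l * Pool.Agent.Y715.T.Rec.cs (j : OK) l *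
                ((c • v) l - (c • v) j) =
                c * ∑ l : S, wt M l * Pool.Agent.Y715.T.Rec.cs (j : OK) l * (v l - v j) := by
              rw [Finset.mul_sum]
              refine Finset.sum_congr rfl fun l _ => ?_
              rw [Pi.smul_apply, Pi.smul_apply, smul_eq_mul, smul_eq_mul]
              ring
            rw [e1, a1 j, Pi.smul_apply, smul_eq_mul]
            ring
          · have e1 : ∀ f : OK → ZMod 3, ∑ j : S, wt M j * f j * (c • v) j =
                c * ∑ j : S, wt M j * f j * v j := by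
              intro f
              rw [Finset.mul_sum]
              refine Finset.sum_congr rfl fun l _ => ?_
              rw [Pi.smul_apply, smul_eq_mul]
              ring
            rw [e1 Pool.Agent.N883.FF.nq, a2, mul_zero]
          · have e1 : ∀ f : OK → ZMod 3, ∑ j : S, wt M j * f j * (c • v) j =
                c * ∑ j : S, wt M j * f j * v j := by
              intro f
              rw [Finset.mul_sum]
              refine Finset.sum_congr rfl fun l _ => ?_
              rw [Pi.smul_apply, smul_eq_mul]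
              ring
            rw [e1 mq, a3, mul_zero] }
    have h2 := Module.card_eq_pow_finrank (K := ZMod 3) (V := V)
    rw [ZMod.card] at h2
    refine ⟨Module.finrank (ZMod 3) V, ?_⟩
    rw [h1, ← h2, ← Nat.card_eq_fintype_card]
    exact (Nat.card_coe_set_eq _).symm
  obtain ⟨i, q, M, S, -, hMS, rfl | rfl⟩ := exists_pair hcf
  · exact key i q M S hMS
  · obtain ⟨d, hd⟩ := key i q M S hMS
    refine ⟨d, ?_⟩
    rw [selmer_eq] at hd ⊢
    rw [selm_neg]
    exact hd

/-- the density of the criterion -/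
theorem density : HasDensity (fun D => NotCube D ∧ Selmer D = {1})
    (152 / 117 * ∏' i : ℕ, (1 - (1 / 3 : ℝ) ^ (2 * i + 1))) := by
  have h1 := final_dens
  unfold HasDensity count
  refine h1.congr fun X => ?_
  have e1 : {D : OK | nrmOK D ≤ X ∧ CubeFree D ∧ True} =
      {D : OK | Pool.Agent.Y692.QS.nr D ≤ X ∧ Cbf D} := by
    ext D
    exact ⟨fun h => ⟨h.1, h.2.1⟩, fun h => ⟨h.1, h.2, trivial⟩⟩
  rw [e1]
  rfl

lemma finite_norm (X : ℕ) : {D : OK | nrmOK D ≤ X}.Finite := fin_nr' X

/-- from the density to the numbers of fields -/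
lemma many {P Q : OK → Prop} {y z : ℝ} (h : HasDensity P y) (hz : z < y)
    (hPQ : ∀ D, CubeFree D → P D → Q D) :
    ∃ X₀ : ℕ, ∀ X : ℕ, X₀ ≤ X → z * count (fun _ => True) X ≤ count Q X := by
  have h1 := h.eventually_const_lt hz
  obtain ⟨X₀, h2⟩ := Filter.eventually_atTop.1 h1
  refine ⟨X₀, fun X hX => ?_⟩
  have h3 := h2 X hX
  have h4 : count P X ≤ count Q X := by
    unfold count
    refine Set.ncard_le_ncard ?_ ((finite_norm X).subset fun D hD => hD.1)
    rintro D ⟨a, b, c⟩
    exact ⟨a, b, hPQ D b c⟩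
  have h5 : (0 : ℝ) ≤ (count (fun _ => True) X : ℝ) := Nat.cast_nonneg _
  have h6 : (count P X : ℝ) ≤ count Q X := by exact_mod_cast h4
  rcases h5.lt_or_eq with h7 | h7
  · rw [lt_div_iff₀ h7] at h3
    linarith
  · rw [← h7, mul_zero]
    exact Nat.cast_nonneg _

end proof

/-- **Schneider's conjecture for `p = 3` and 83 percent of all cyclic cubic extensions of `ℚ(ω)`.** -/
theorem result (w : QBar) (hw : w ^ 2 + w + 1 = 0) :
    (∀ (D : OK) (d : ℕ), CubeFree D → NotCube D → (Selmer D).ncard = 3 ^ d →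
      ∀ (k : ℕ) (L : IntermediateField ℚ QBar), IsCyclicOver w D k L → ∀ r : ℤ, r ≠ 0 →
        RankLE L r ((3 ^ (k + 1) - 1) * d) ∧ (d = 0 → ∀ L' ≤ L, ShaZero L' r)) ∧
    (∀ D : OK, CubeFree D → NotCube D →
      IsCyclicOver w D 0 (CubicField w D) ∧ ∃ d, (Selmer D).ncard = 3 ^ d) ∧
    HasDensity (fun D => NotCube D ∧ Selmer D = {1})
      (152 / 117 * ∏' i : ℕ, (1 - (1 / 3 : ℝ) ^ (2 * i + 1))) ∧
    ∃ X₀ : ℕ, ∀ X : ℕ, X₀ ≤ X →
      (0.83 : ℝ) * count (fun _ => True) X ≤ count (Schneider w) X := by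
  refine ⟨fun D d hcf hnc hd k L h r hr => ranks hw hcf hnc hd h hr,
    fun D hcf hnc => ⟨cubic_cyclic hw hcf hnc, exists_dim hcf⟩, density, ?_⟩
  refine many density ?_ fun D hcf h => ⟨h.1, fun k L L' hL hle r hr => ?_⟩
  · have h1 : (0.639 : ℝ) < ∏' i : ℕ, (1 - (1 / 3 : ℝ) ^ (2 * i + 1)) :=
      Pool.Agent.N848.SM.c9_bound
    linarith
  · exact (ranks hw hcf h.1 (d := 0) (by rw [h.2, Set.ncard_singleton, pow_zero]) hL hr).2 rfl L' hle

end Pool.Agent.Results.MP_59f3ad_nt.AllCyclicCubicExtensions
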