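import Mathlib
import Pool.Agent.N848.Sch.M
import Pool.Agent.Y703.XL.Fin
import Pool.Agent.Y145.CT.Cnt9

/-!
# Schneider's conjecture for `p = 3` and all twists over cyclic extensions of `ℚ(ω)`

`K = ℚ(ω)`, `ω² + ω + 1 = 0`, with ring of integers `ℤ[ω]`. Let `D = π_1 ^ e_1 ... π_n ^ e_n` with
different primes `π_i = 1` modulo `3` and `e_i ∈ {1, 2}`, and assume that `D` is not `1` modulo `9`.
The vectors `v ∈ 𝔽_3^n` such that for all `j` the product of the `π_i ^ (e_i (v_i - v_j))` is a cube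
modulo `π_j` form a vector space of dimension `d + 1`, `d = d(D)` (the kernel of the Laplacian of the
cubic residue symbols; it contains the constants).

Theorem. Let `L` be a cyclic extension of `K` of degree `3 ^ (k + 1)` which contains `K(∛D)` and is
unramified outside `3 D`; for instance `L = K(∛D)`. For **all** integers `r ≠ 0` and all `S` the rank
of `Ш¹(O_{L,S}, ℤ_3(r))` is at most `(3 ^ (k + 1) - 1) d`, and if `d = 0` then
`Ш¹(O_{L,S}, ℤ_3(r)) = 0`.

In the family of the squarefree `D = 1` modulo `3` with norm not `1` modulo `9`, ordered by the norm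
(a family of positive density in `ℤ[ω]`), the law of `d` is known exactly. It follows that
`Ш¹(O_{L,S}, ℤ_3(r)) = 0` for all `r ≠ 0` and all `S` for at least 63.9 percent of the fields
`L = K(∛D)`, and that the average over `D` of the maximal rank of the groups
`Ш¹(O_{L,S}, ℤ_3(r))`, `r ≠ 0`, is at most `0.809`.

The statistics of the kernels are from the library (`Pool/Agent/Y703/XL`, see the credits there), as
are the basic facts on cubic characters of `ℚ(ω)` (`Pool/Agent/Y715/T`). The new part is in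
`Pool/Agent/N848/Sch`.
-/

set_option autoImplicit false

namespace Pool.Agent.Results.MP_59f3ad_nt.CubicFieldsAllTwists

/-! ### The fields -/

/-- An algebraic closure of `ℚ`. -/
abbrev QBar : Type := AlgebraicClosure ℚ

/-- The ring of integers `ℤ[ω]`, `ω² = -1 - ω`, of `ℚ(ω)`. -/
abbrev OK : Type := QuadraticAlgebra ℤ (-1) (-1)

/-- The norm `a² - a b + b²` of `a + b ω`. -/
def nr (z : OK) : ℤ := z.re ^ 2 - z.re * z.im + z.im ^ 2

/-- The element `a + b w` for `z = a + b ω`. -/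
noncomputable def emb (w : QBar) (z : OK) : QBar := z.re + z.im * w

/-- The field `K = ℚ(w)`. It is `ℚ(ω)` if `w² + w + 1 = 0`. -/
noncomputable abbrev K (w : QBar) : IntermediateField ℚ QBar := IntermediateField.adjoin ℚ {w}

/-- The absolute Galois group of `K`. -/
def Gal (w : QBar) : Type := QBar ≃ₐ[K w] QBar

/-- Its group structure (the one of Mathlib). -/
noncomputable instance instGroupGal (w : QBar) : Group (Gal w) :=
  (inferInstance : Group (QBar ≃ₐ[K w] QBar))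

/-- Its topology (the Krull topology of Mathlib). -/
noncomputable instance instTopGal (w : QBar) : TopologicalSpace (Gal w) :=
  (inferInstance : TopologicalSpace (QBar ≃ₐ[K w] QBar))

/-- The element `σ` as an automorphism of the field `ℚ̄`. -/
noncomputable def aut {w : QBar} (σ : Gal w) : QBar ≃+* QBar := AlgEquiv.toRingEquiv σ

/-- The absolute Galois group of `K(s)`, a closed subgroup of the one of `K`. -/
noncomputable def sub (w s : QBar) : Subgroup (Gal w) :=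
  (IntermediateField.adjoin (K w) {s}).fixingSubgroup

/-! ### The Tate twists and the Tate–Shafarevich groups

An algebraic extension `L` of `K` in `ℚ̄` is given by its absolute Galois group `H`, a closed
subgroup of the absolute Galois group of `K`. -/

/-- The `3`-adic cyclotomic character. -/
noncomputable def cyc {w : QBar} (σ : Gal w) : ℤ_[3]ˣ := cyclotomicCharacter QBar 3 (aut σ)

/-- The `3`-adic integer by which `σ` acts on `ℤ_3(r)`, that is, the `r`-th power of the value of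
the cyclotomic character. -/
noncomputable def tate {w : QBar} (r : ℤ) (σ : Gal w) : ℤ_[3] :=
  (((cyc σ) ^ r : ℤ_[3]ˣ) : ℤ_[3])

/-- `τ` is an extension of `σ` to the completion, with respect to the embedding `ι` of `ℚ̄`. -/
def Ext {w : QBar} {p : ℕ} [Fact p.Prime] (ι : QBar →ₐ[ℚ] PadicAlgCl p)
    (τ : PadicAlgCl p ≃ₐ[ℚ_[p]] PadicAlgCl p) (σ : Gal w) : Prop := ∀ x, τ (ι x) = ι (aut σ x)

/-- The decomposition group of the place of `ℚ̄` given by the embedding `ι`. -/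
def Dec {w : QBar} {p : ℕ} [Fact p.Prime] (ι : QBar →ₐ[ℚ] PadicAlgCl p) (σ : Gal w) : Prop :=
  ∃ τ : PadicAlgCl p ≃ₐ[ℚ_[p]] PadicAlgCl p, Ext ι τ σ

/-- Its inertia group: the automorphisms which are trivial on the residue field. -/
def Inr {w : QBar} {p : ℕ} [Fact p.Prime] (ι : QBar →ₐ[ℚ] PadicAlgCl p) (σ : Gal w) : Prop :=
  ∃ τ : PadicAlgCl p ≃ₐ[ℚ_[p]] PadicAlgCl p, Ext ι τ σ ∧
    ∀ z : PadicAlgCl p, ‖z‖ ≤ 1 → ‖τ z - z‖ < 1

section

variable {w : QBar} {H : Subgroup (Gal w)}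

/-- The continuous cocycles of the absolute Galois group `H` of `L` with values in `ℤ_3(r)`. -/
structure IsCocycle (r : ℤ) (c : ↥H → ℤ_[3]) : Prop where
  cont : Continuous c
  mul : ∀ σ τ, c (σ * τ) = c σ + tate r (σ : Gal w) * c τ

/-- The restriction of `c` to the set of the elements with the property `S` is a coboundary with
values in `ℤ_3(r)`. -/
def TrivialOn (r : ℤ) (S : Gal w → Prop) (c : ↥H → ℤ_[3]) : Prop :=
  ∃ z : ℤ_[3], ∀ σ : ↥H, S (σ : Gal w) → c σ = (tate r (σ : Gal w) - 1) * z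

/-- The cocycles of the elements of the groups `Ш¹(O_{L,S}, ℤ_3(r))`: they vanish on the inertia
groups of the places prime to `3` (on which the cyclotomic character is trivial), because their
classes are unramified outside `S` and locally trivial at the places of `S`, and their restrictions
to the decomposition groups of the places above `3` are coboundaries. -/
structure InSha (r : ℤ) (c : ↥H → ℤ_[3]) : Prop where
  away : ∀ (p : ℕ) [Fact p.Prime] (ι : QBar →ₐ[ℚ] PadicAlgCl p), p ≠ 3 → ∀ σ : ↥H,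
    Inr ι (σ : Gal w) → c σ = 0
  three : ∀ ι : QBar →ₐ[ℚ] PadicAlgCl 3, TrivialOn r (Dec ι) c

end

/-- `Ш¹(O_{L,S}, ℤ_3(r)) = 0` for all `S`. -/
def ShaZero {w : QBar} (H : Subgroup (Gal w)) (r : ℤ) : Prop :=
  ∀ c : ↥H → ℤ_[3], IsCocycle r c → InSha r c → TrivialOn r (fun _ => True) c

/-- The rank of the `ℤ_3`-modules `Ш¹(O_{L,S}, ℤ_3(r))` is at most `m`: any `m + 1` elements are
linearly dependent. -/
def RankLE {w : QBar} (H : Subgroup (Gal w)) (r : ℤ) (m : ℕ) : Prop :=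
  ∀ c : Fin (m + 1) → ↥H → ℤ_[3], (∀ i, IsCocycle r (c i)) → (∀ i, InSha r (c i)) →
    ∃ x : Fin (m + 1) → ℤ_[3], (∃ i, x i ≠ 0) ∧
      TrivialOn r (fun _ => True) fun σ => ∑ i, x i * c i σ

/-- The rank of the `ℤ_3`-modules `Ш¹(O_{L,S}, ℤ_3(r))`. -/
noncomputable def shaRank {w : QBar} (H : Subgroup (Gal w)) (r : ℤ) : ℕ :=
  sInf {m | RankLE H r m}

/-! ### The family -/

/-- `D = π_1 ^ e_1 ... π_n ^ e_n` with different primes `π_i = 1` modulo `3` and exponents `1`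
or `2`. -/
structure IsFac {n : ℕ} (π : Fin n → OK) (e : Fin n → ZMod 3) (D : OK) : Prop where
  prime : ∀ i, Prime (π i)
  one : ∀ i, (3 : OK) ∣ π i - 1
  inj : Function.Injective π
  exp : ∀ i, e i ≠ 0
  prod : D = ∏ i, π i ^ (e i).val

/-- `x` is a cube modulo `q`. -/
def IsCubeMod (q x : OK) : Prop := ∃ y : OK, q ∣ x - y ^ 3

/-- The vectors `v` such that for all `j` the product of the `π_i ^ (e_i (v_i - v_j))` is a cube
modulo `π_j`, that is, the kernel of the Laplacian of the cubic residue symbols. -/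
def Sols {n : ℕ} (π : Fin n → OK) (e : Fin n → ZMod 3) : Set (Fin n → ZMod 3) :=
  {v | ∀ j, IsCubeMod (π j) (∏ i, π i ^ (e i * (v i - v j)).val)}

/-- The invariant of `D` is `d`: the number of these vectors is `3 ^ (d + 1)`. -/
def Inv (D : OK) (d : ℕ) : Prop :=
  ∃ (n : ℕ) (π : Fin n → OK) (e : Fin n → ZMod 3), IsFac π e D ∧ (Sols π e).ncard = 3 ^ (d + 1)

/-- The squarefree elements `D = 1` modulo `3` with norm different from `1` modulo `9`. -/
def Cls (D : OK) : Prop := (3 : OK) ∣ D - 1 ∧ Squarefree D ∧ ¬ (9 : ℤ) ∣ nr D - 1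

/-- The elements of the class with norm at most `X` and the property `P`. -/
def Up (P : OK → Prop) (X : ℕ) : Set OK := {D | nr D ≤ X ∧ Cls D ∧ P D}

/-- `H` is the absolute Galois group of a cyclic extension `L` of `K` of degree `3 ^ (k + 1)`: it is
open, and it is the kernel of a homomorphism onto a cyclic group of this order. -/
def IsCyc {w : QBar} (k : ℕ) (H : Subgroup (Gal w)) : Prop :=
  IsOpen (H : Set (Gal w)) ∧ ∃ f : Gal w → ZMod (3 ^ (k + 1)),
    Function.Surjective f ∧ (∀ σ τ, f (σ * τ) = f σ + f τ) ∧ ∀ σ, f σ = 0 ↔ σ ∈ H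

/-- The extension `L` is unramified at the primes of `K` that do not divide `3 D`. -/
def Unr {w : QBar} (D : OK) (H : Subgroup (Gal w)) : Prop :=
  ∀ (p : ℕ) [Fact p.Prime] (ι : QBar →ₐ[ℚ] PadicAlgCl p), p ≠ 3 → ¬ ‖ι (emb w D)‖ < 1 →
    ∀ σ : Gal w, Inr ι σ → σ ∈ H

/-- For `L = K(∛D)` the degree of `L` over `K` is three and `Ш¹(O_{L,S}, ℤ_3(r)) = 0` for all
`r ≠ 0` and all `S`. -/
def Schneider (D : OK) : Prop :=
  ∀ w s : QBar, w ^ 2 + w + 1 = 0 → s ^ 3 = emb w D → s ∉ K w ∧ ∀ r : ℤ, r ≠ 0 → ShaZero (sub w s) r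

/-- The bounds for `L = K(∛D)` and for all cyclic extensions `L` of `K` of degree `3 ^ (k + 1)` which
contain `K(∛D)` and are unramified outside `3 D`: for all `r ≠ 0` the rank of
`Ш¹(O_{L,S}, ℤ_3(r))` is at most `(3 ^ (k + 1) - 1) d`, and the group is zero if `d = 0`. -/
def Bounds (D : OK) (d : ℕ) : Prop :=
  ∀ w s : QBar, w ^ 2 + w + 1 = 0 → s ^ 3 = emb w D → s ∉ K w ∧ ∀ r : ℤ, r ≠ 0 →
    (RankLE (sub w s) r (2 * d) ∧ (d = 0 → ShaZero (sub w s) r)) ∧
    ∀ (k : ℕ) (H : Subgroup (Gal w)), IsCyc k H → H ≤ sub w s → Unr D H →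
      RankLE H r ((3 ^ (k + 1) - 1) * d) ∧ (d = 0 → ShaZero H r)

/-- The class has positive density. -/
def PosDensity : Prop := ∃ c : ℝ, 0 < c ∧ ∃ X₀ : ℕ, ∀ X : ℕ, X₀ ≤ X →
  c * X ≤ ((Up (fun _ => True) X).ncard : ℝ)

/-- The proportion of the elements of the class with invariant `d` tends to
`c / ((3 - 1) (3 ^ 2 - 1) ... (3 ^ d - 1))`, `c = (1 - 3⁻¹) (1 - 3⁻³) (1 - 3⁻⁵) ...`. -/
def Law : Prop := ∀ d : ℕ, Filter.Tendsto
  (fun X : ℕ => ((Up (fun D => Inv D d) X).ncard : ℝ) / ((Up (fun _ => True) X).ncard : ℝ))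
  Filter.atTop (nhds ((∏' i : ℕ, (1 - (1 / 3 : ℝ) ^ (2 * i + 1))) /
    ∏ i ∈ Finset.range d, ((3 : ℝ) ^ (i + 1) - 1)))

/-- At least the proportion `b` of the elements of the class has the property `P`. -/
def AtLeast (P : OK → Prop) (b : ℝ) : Prop := ∀ᶠ X : ℕ in Filter.atTop,
  b * ((Up (fun _ => True) X).ncard : ℝ) ≤ ((Up P X).ncard : ℝ)

/-- For every choice of twists `r(D) ≠ 0` the average of the ranks of the groups
`Ш¹(O_{L,S}, ℤ_3(r(D)))`, `L = K(∛D)`, over the elements `D` of the class with norm at most `X` is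
at most `b` for all large `X`. -/
def AverageLE (b : ℝ) : Prop :=
  ∀ w : QBar, w ^ 2 + w + 1 = 0 → ∀ s : OK → QBar, (∀ D, s D ^ 3 = emb w D) →
    ∀ r : OK → ℤ, (∀ D, r D ≠ 0) → ∀ᶠ X : ℕ in Filter.atTop,
      ∑ᶠ D ∈ Up (fun _ => True) X, (shaRank (sub w (s D)) (r D) : ℝ) ≤
        b * ((Up (fun _ => True) X).ncard : ℝ)

/-! ### The proof -/

section proof

open Pool.Agent.N848.Sch
open Pool.Agent.Y715.T.Gi (ev ev_apply Kc)
open Pool.Agent.Y715.T.RecG (Pq)
open Pool.Agent.Y703.CT (ClsE ppr)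
open Pool.Agent.Y703.XL (nS)

lemma emb_eq {w : QBar} (hw : w ^ 2 + w + 1 = 0) (z : OK) : emb w z = ev w hw z := by
  unfold emb
  rw [ev_apply]

lemma pq_of {n : ℕ} {π : Fin n → OK} {e : Fin n → ZMod 3} {D : OK} (h : IsFac π e D) (i : Fin n) :
    Pq (π i) := ⟨h.prime i, h.one i⟩

lemma sols_eq {n : ℕ} {π : Fin n → OK} {e : Fin n → ZMod 3} {D : OK} (h : IsFac π e D) :
    Sols π e = Lap π e := (lap_eq (pp_of (pq_of h) h.inj) e).symm

lemma ne_of {n : ℕ} {π : Fin n → OK} {e : Fin n → ZMod 3} {D : OK} (h : IsFac π e D) : D ≠ 0 := by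
  rw [h.prod]
  exact Finset.prod_ne_zero_iff.2 fun i _ => pow_ne_zero _ (h.prime i).ne_zero

/-- the Kummer character is not trivial -/
lemma kc_ne {w : QBar} (hw : w ^ 2 + w + 1 = 0) {n : ℕ} {π : Fin n → OK} {e : Fin n → ZMod 3}
    {D : OK} (h : IsFac π e D) (h9 : ¬ (9 : OK) ∣ D - 1)
    {χ : Pool.Agent.Y715.T.Gi.GK w → ZMod 3} (hχ : Kc hw D χ) : ∃ σ, χ σ ≠ 0 := by
  obtain ⟨ι⟩ := Pool.Agent.Y715.T.Sel.exists_emb3
  obtain ⟨-, σ, -, hσ⟩ := exists_three (by
    rw [h.prod]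
    exact (pp_of (pq_of h) h.inj).prod_form _) h9 hχ ι
  exact ⟨σ, hσ⟩

lemma not_mem {w s : QBar} (hw : w ^ 2 + w + 1 = 0) {n : ℕ} {π : Fin n → OK} {e : Fin n → ZMod 3}
    {D : OK} (h : IsFac π e D) (h9 : ¬ (9 : OK) ∣ D - 1) (hs : s ^ 3 = emb w D) : s ∉ K w := by
  intro hmem
  rw [emb_eq hw] at hs
  obtain ⟨χ, h1, -, -⟩ := exists_kc hw (ne_of h)
  obtain ⟨σ, hσ⟩ := kc_ne hw h h9 h1
  apply hσ
  apply Pool.Agent.Y715.T.Sel.i₀_inj (hi := hw)
  apply mul_right_cancel₀ (Pool.Agent.Y715.T.Sel.root_ne (ne_of h) hs)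
  rw [← h1 s hs σ, ZMod.val_zero, pow_zero, one_mul]
  exact σ.commutes ⟨s, hmem⟩

/-- the rank bound for a field with a character -/
lemma rank_of {w : QBar} (hw : w ^ 2 + w + 1 = 0) {n : ℕ} {π : Fin n → OK} {e : Fin n → ZMod 3}
    {D : OK} (h : IsFac π e D) (h9 : ¬ (9 : OK) ∣ D - 1) {k : ℕ}
    {H : Subgroup (Gal w)} {a : Pool.Agent.Y715.T.Gi.GK w → ZMod (3 ^ (k + 1))}
    (hdat : Dat hw H k D a) (HU : Unr D H)
    {d : ℕ} (hd : (Sols π e).ncard = 3 ^ (d + 1)) {r : ℤ} (hr : r ≠ 0) :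
    RankLE H r ((3 ^ (k + 1) - 1) * d) ∧ (d = 0 → ShaZero H r) := by
  rw [sols_eq h] at hd
  have hU : ∀ (p : ℕ) [Fact p.Prime] (ι : QBar →ₐ[ℚ] PadicAlgCl p), p ≠ 3 →
      ¬ ‖ι (ev w hw D)‖ < 1 → ∀ (τ : Pool.Agent.Y715.T.Nr.Au p) (σ : Pool.Agent.Y715.T.Gi.GK w),
        Pool.Agent.Y715.T.Df.Cmp ι τ σ → Pool.Agent.Y715.T.Nr.Inert τ → σ ∈ H := by
    intro p _ ι hp hlt τ σ hc hin
    rw [← emb_eq hw] at hlt
    exact HU p ι hp hlt σ ⟨τ, hc, hin⟩
  have key : RankLE H r ((3 ^ (k + 1) - 1) * d) := by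
    intro c hc hsha
    obtain ⟨x, hx, y, hy⟩ := rank_field (c := c) hdat (pp_of (pq_of h) h.inj) h.exp h.prod h9 hU
      hd.le hr (Nat.lt_succ_self _) (fun l => (hc l).cont) (fun l σ τ => (hc l).mul σ τ)
      (fun l p _ ι hp τ σ hcmp hin => (hsha l).away p ι hp σ ⟨τ, hcmp, hin⟩)
      (fun l ι => by
        obtain ⟨y, hy⟩ := (hsha l).three ι
        exact ⟨y, fun τ σ hcmp => hy σ ⟨τ, hcmp⟩⟩)
    exact ⟨x, hx, y, fun σ _ => hy σ⟩
  refine ⟨key, ?_⟩
  rintro rfl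
  intro c hc hsha
  obtain ⟨x, ⟨i, hx⟩, y, hy⟩ := key (fun _ => c) (fun _ => hc) (fun _ => hsha)
  obtain ⟨y', hy'⟩ := tf_field (c := c) (X := ∑ i, x i) hw hdat hr (fun ι => by
    obtain ⟨y, hy⟩ := hsha.three ι
    exact ⟨y, fun τ σ hcmp => hy σ ⟨τ, hcmp⟩⟩) (by
      have hs : Subsingleton (Fin ((3 ^ (k + 1) - 1) * 0 + 1)) := by
        rw [mul_zero]
        exact (inferInstance : Subsingleton (Fin 1))
      rw [Finset.sum_eq_single i (fun b _ hb => absurd (Subsingleton.elim b i) hb)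
        (fun hb => absurd (Finset.mem_univ i) hb)]
      exact hx) (y := y) (fun σ => by
        rw [Finset.sum_mul]
        exact hy σ trivial)
  exact ⟨y', fun σ _ => hy' σ⟩

/-- the cyclic extensions -/
theorem cyclic_case {w s : QBar} (hw : w ^ 2 + w + 1 = 0) {n : ℕ} {π : Fin n → OK}
    {e : Fin n → ZMod 3} {D : OK} (h : IsFac π e D) (h9 : ¬ (9 : OK) ∣ D - 1)
    (hs : s ^ 3 = emb w D) {k : ℕ} {H : Subgroup (Gal w)} (hH : IsCyc k H) (hle : H ≤ sub w s)
    (HU : Unr D H) {d : ℕ} (hd : (Sols π e).ncard = 3 ^ (d + 1)) {r : ℤ} (hr : r ≠ 0) :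
    RankLE H r ((3 ^ (k + 1) - 1) * d) ∧ (d = 0 → ShaZero H r) := by
  rw [emb_eq hw] at hs
  obtain ⟨hopen, f, hf1, hf2, hf3⟩ := hH
  obtain ⟨a, ha⟩ := dat_cyclic hw (ne_of h) hs (fun χ hχ => kc_ne hw h h9 hχ) hopen hf1 hf2 hf3
    (fun σ hσ => mem_fix.1 (hle hσ))
  exact rank_of hw h h9 ha HU hd hr

/-- the extension `K(∛D)` -/
theorem cubic_case {w s : QBar} (hw : w ^ 2 + w + 1 = 0) {n : ℕ} {π : Fin n → OK}
    {e : Fin n → ZMod 3} {D : OK} (h : IsFac π e D) (h9 : ¬ (9 : OK) ∣ D - 1)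
    (hs : s ^ 3 = emb w D) {d : ℕ} (hd : (Sols π e).ncard = 3 ^ (d + 1)) {r : ℤ} (hr : r ≠ 0) :
    RankLE (sub w s) r (2 * d) ∧ (d = 0 → ShaZero (sub w s) r) := by
  rw [emb_eq hw] at hs
  obtain ⟨a, ha⟩ := dat_cubic hw (ne_of h) hs (fun χ hχ => kc_ne hw h h9 hχ)
  have h2 : 2 * d = (3 ^ (0 + 1) - 1) * d := by norm_num
  rw [h2]
  refine rank_of hw h h9 ha ?_ hd hr
  rintro p _ ι hp hlt σ ⟨τ, hc, hin⟩
  rw [emb_eq hw, Pool.Agent.Y715.T.Sel.iota_ev] at hlt
  have h1 : τ (ι s) = ι s := by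
    refine Pool.Agent.Y715.T.Sel.fix_of_unit (Pool.Agent.Y715.T.Sel.iota_sq hw ι) hp (z := D)
      (by rw [← map_pow, hs, Pool.Agent.Y715.T.Sel.iota_ev]) hlt hin ?_
    have h3 : aut σ w = w :=
      AlgEquiv.commutes (show QBar ≃ₐ[K w] QBar from σ)
        ⟨w, IntermediateField.mem_adjoin_simple_self ℚ w⟩
    rw [hc, h3]
  rw [hc] at h1
  exact mem_fix.2 (ι.injective h1)

lemma not_nine {D : OK} (h : Cls D) : ¬ (9 : OK) ∣ D - 1 := by
  rintro ⟨q, hq⟩
  apply h.2.2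
  have hD : D = 1 + 9 * q := by rw [← hq]; ring
  have a1 : (9 : OK).re = 9 := rfl
  have a2 : (9 : OK).im = 0 := rfl
  have a3 : (1 : OK).re = 1 := rfl
  have a4 : (1 : OK).im = 0 := rfl
  have e1 : D.re = 1 + 9 * q.re := by
    rw [hD, QuadraticAlgebra.re_add, QuadraticAlgebra.re_mul, a1, a2, a3]
    ring
  have e2 : D.im = 9 * q.im := by
    rw [hD, QuadraticAlgebra.im_add, QuadraticAlgebra.im_mul, a1, a2, a4]
    ring
  refine ⟨2 * q.re + 9 * q.re ^ 2 - (1 + 9 * q.re) * q.im + 9 * q.im ^ 2, ?_⟩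
  unfold nr
  rw [e1, e2]
  ring

/-- the factorization of the elements of the class -/
theorem fac_of {D : OK} (h : Cls D) : ∃ (n : ℕ) (π : Fin (n + 1) → OK),
    IsFac π (fun _ => 1) D ∧ (Sols π (fun _ => 1)).ncard = nS (ppr D) := by
  obtain ⟨n, π, h1, h2, h3⟩ := exists_fac (D := D) h
  have hf : IsFac π (fun _ => 1) D := by
    refine ⟨fun i => (h1 i).prime, fun i => (h1 i).three, h2, fun _ => one_ne_zero, ?_⟩
    rw [h3]
    refine Finset.prod_congr rfl fun i _ => ?_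
    have : ((1 : ZMod 3)).val = 1 := rfl
    rw [this, pow_one]
  refine ⟨n, π, hf, ?_⟩
  rw [sols_eq hf, h3, ppr_prod h1, nS_image h2]

lemma inv_iff {D : OK} (h : Cls D) (d : ℕ) : Inv D d ↔ nS (ppr D) = 3 ^ (d + 1) := by
  constructor
  · rintro ⟨n, π, e, hf, hd⟩
    have he : ∀ i, e i = 1 := by
      intro i
      have h1 : ∀ c : ZMod 3, c ≠ 0 → c = 1 ∨ c.val = 2 := by decide
      rcases h1 _ (hf.exp i) with h2 | h2
      · exact h2
      · exfalso
        have h3 : π i * π i ∣ D := by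
          rw [hf.prod]
          refine dvd_trans ?_ (Finset.dvd_prod_of_mem _ (Finset.mem_univ i))
          rw [h2, pow_two]
        exact (hf.prime i).not_isUnit (h.2.1 _ h3)
    have he' : e = fun _ => 1 := funext he
    subst he'
    have hprod : D = ∏ i, π i := by
      rw [hf.prod]
      refine Finset.prod_congr rfl fun i _ => ?_
      have : ((1 : ZMod 3)).val = 1 := rfl
      rw [this, pow_one]
    rw [sols_eq hf] at hd
    rw [hprod, ppr_prod (pq_of hf), nS_image hf.inj, hd]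
  · intro hd
    obtain ⟨n, π, hf, h1⟩ := fac_of h
    exact ⟨_, π, _, hf, h1.trans hd⟩

lemma exists_inv {D : OK} (h : Cls D) : ∃ d, Inv D d := by
  have h1 : (ppr D).Nonempty := by
    obtain ⟨n, π, h1, -, h3⟩ := exists_fac (D := D) h
    rw [h3, ppr_prod h1]
    exact ⟨π 0, Finset.mem_image_of_mem _ (Finset.mem_univ 0)⟩
  obtain ⟨d, hd⟩ := Pool.Agent.Y703.XL.nS_succ h1
  exact ⟨d, (inv_iff h d).2 hd⟩

lemma up_inv (X d : ℕ) : Up (fun D => Inv D d) X = {D : OK | Pool.Agent.Y692.QS.nr D ≤ X ∧ ClsE D ∧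
    nS (ppr D) = 3 ^ (d + 1)} := by
  ext D
  constructor
  · rintro ⟨h1, h2, h3⟩
    exact ⟨h1, h2, (inv_iff h2 d).1 h3⟩
  · rintro ⟨h1, h2, h3⟩
    exact ⟨h1, h2, (inv_iff h2 d).2 h3⟩

lemma up_true (X : ℕ) : Up (fun _ => True) X =
    {D : OK | Pool.Agent.Y692.QS.nr D ≤ X ∧ ClsE D} := by
  ext D
  constructor
  · rintro ⟨h1, h2, -⟩
    exact ⟨h1, h2⟩
  · rintro ⟨h1, h2⟩
    exact ⟨h1, h2, trivial⟩

lemma up_cl (X : ℕ) : Up (fun _ => True) X = ↑(Pool.Agent.Y699.E.Cl X) := by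
  rw [up_true]
  ext D
  exact Pool.Agent.Y703.XL.mem_cl.symm

lemma up_ncard (X : ℕ) : (Up (fun _ => True) X).ncard = (Pool.Agent.Y699.E.Cl X).card := by
  rw [up_cl, Set.ncard_coe_finset]

lemma up_fin (P : OK → Prop) (X : ℕ) : (Up P X).Finite := by
  have h : Up P X ⊆ Up (fun _ => True) X := fun D hD => ⟨hD.1, hD.2.1, trivial⟩
  refine Set.Finite.subset ?_ h
  rw [up_cl]
  exact Finset.finite_toSet _

/-- the class has positive density -/
theorem pos_den : PosDensity := by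
  obtain ⟨c, hc, X₀, h⟩ := Pool.Agent.Y145.CT9.cnt9
  refine ⟨c, hc, X₀, fun X hX => ?_⟩
  rw [up_true]
  exact h X hX

/-- the law -/
theorem law : Law := by
  intro d
  simp only [up_inv, up_true]
  exact Pool.Agent.Y703.XL.t_LAW d

lemma schneider_of {D : OK} (h : Cls D) (h0 : Inv D 0) : Schneider D := by
  obtain ⟨n, π, e, hf, hd⟩ := h0
  intro w s hw hs
  exact ⟨not_mem hw hf (not_nine h) hs, fun r hr => (cubic_case hw hf (not_nine h) hs hd hr).2 rfl⟩

/-- the proportion of the fields for which Schneider's conjecture holds -/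
theorem proportion : AtLeast Schneider 0.639 := by
  have h1 := law 0
  have h2 : (0.639 : ℝ) < (∏' i : ℕ, (1 - (1 / 3 : ℝ) ^ (2 * i + 1))) /
      ∏ i ∈ Finset.range 0, ((3 : ℝ) ^ (i + 1) - 1) := by
    rw [Finset.range_zero, Finset.prod_empty, div_one]
    exact Pool.Agent.Y703.XL.t_C9.2.2.2.1
  have h3 := (tendsto_order.1 h1).1 _ h2
  obtain ⟨c, hc, X₀, hden⟩ := pos_den
  filter_upwards [h3, Filter.eventually_ge_atTop X₀, Filter.eventually_ge_atTop 1] with X hX h4 h5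
  have h6 : (0 : ℝ) < ((Up (fun _ => True) X).ncard : ℝ) := by
    have h7 : (0 : ℝ) < X := by exact_mod_cast h5
    exact lt_of_lt_of_le (by positivity) (hden X h4)
  rw [lt_div_iff₀ h6] at hX
  refine hX.le.trans ?_
  have h8 : (Up (fun D => Inv D 0) X).ncard ≤ (Up Schneider X).ncard :=
    Set.ncard_le_ncard (fun D hD => ⟨hD.1, hD.2.1, schneider_of hD.2.1 hD.2.2⟩) (up_fin _ X)
  exact_mod_cast h8

/-- the average rank -/
theorem average {w : QBar} (hw : w ^ 2 + w + 1 = 0) {s : OK → QBar}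
    (hs : ∀ D, s D ^ 3 = emb w D) {r : OK → ℤ} (hr : ∀ D, r D ≠ 0) :
    ∀ᶠ X : ℕ in Filter.atTop,
      ∑ᶠ D ∈ Up (fun _ => True) X, (shaRank (sub w (s D)) (r D) : ℝ) ≤
        0.809 * ((Up (fun _ => True) X).ncard : ℝ) := by
  refine Pool.Agent.Y703.XL.t_RKA'.mono fun X hX => ?_
  rw [up_ncard, up_cl, finsum_mem_coe_finset]
  have h1 : ∑ D ∈ Pool.Agent.Y699.E.Cl X, (shaRank (sub w (s D)) (r D) : ℝ) ≤
      ∑ D ∈ Pool.Agent.Y699.E.Cl X, 2 * (Pool.Agent.Y703.XL.rr (ppr D) : ℝ) := by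
    refine Finset.sum_le_sum fun D hD => ?_
    have hD' : Cls D := (Pool.Agent.Y703.XL.mem_cl.1 hD).2
    obtain ⟨d, hd⟩ := exists_inv hD'
    rw [Pool.Agent.Y703.XL.rr_of ((inv_iff hD' d).1 hd)]
    obtain ⟨n, π, e, hf, hd⟩ := hd
    have h2 := (cubic_case hw hf (not_nine hD') (hs D) hd (hr D)).1
    have h3 : shaRank (sub w (s D)) (r D) ≤ 2 * d := Nat.sInf_le h2
    exact_mod_cast h3
  rw [← Finset.mul_sum] at h1
  linarith

end proof

/-- **Main result.** -/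
theorem result :
    (∀ (D : OK) (d : ℕ), ¬ (9 : OK) ∣ D - 1 → Inv D d → Bounds D d) ∧
    (∀ D : OK, Cls D → ¬ (9 : OK) ∣ D - 1 ∧ ∃ d, Inv D d) ∧
    PosDensity ∧ Law ∧ AtLeast Schneider 0.639 ∧ AverageLE 0.809 := by
  refine ⟨?_, fun D hD => ⟨not_nine hD, exists_inv hD⟩, pos_den, law, proportion,
    fun w hw s hs r hr => average hw hs hr⟩
  rintro D d h9 ⟨n, π, e, hf, hd⟩ w s hw hs
  exact ⟨not_mem hw hf h9 hs, fun r hr => ⟨cubic_case hw hf h9 hs hd hr,
    fun k H hH hle HU => cyclic_case hw hf h9 hs hH hle HU hd hr⟩⟩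

end Pool.Agent.Results.MP_59f3ad_nt.CubicFieldsAllTwists
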