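import Mathlib
import Pool.Agent.N848.Q.J
import Pool.Agent.N848.Q.K

/-!
# Schneider's conjecture for `p = 2` and all twists: quadratic and multiquadratic fields

For an integer `e` let `(C_e)` be the following condition: the only factorization `e = a b` with
`a = 1` modulo `8`, with `a > 0` if `e > 0`, such that `a` is a square modulo all odd prime divisors
of `b` and `b` is a square modulo all odd prime divisors of `a`, is the one with `a = 1`.

Theorem 1. Let `A` be a finite set of nonzero integers and let `r ≠ 0`. Assume that the squarefree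
parts `e` of the products of the elements of the subsets of `A` satisfy `(C_e)` (if `r` is even),
`(C_{-e})` (if `r` is odd). Then `Ш¹(O_{L,S}, ℤ_2(r)) = 0` for all `S` and all subfields `L` of the
field generated by the square roots of the elements of `A`.

Theorem 2. For squarefree `m > 0` in the classes `2, 3, 5, 6` modulo `8` the condition `(C_{-m})`
implies `(C_m)`. The conclusion therefore holds for **all** `r ≠ 0` and all subfields `L` of
`ℚ(√-1, √m)`, if `(C_{-m})` holds. In the class `1` it holds for `ℚ(√m)` and all odd `r` and for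
`ℚ(√-m)` and all even `r ≠ 0`.

Theorem 3. In each of the classes `1, 2, 3, 5, 6` modulo `8` the proportion (the natural density) of
the squarefree `m` with `(C_{-m})` is `η = ∏_{i ≥ 1} (1 - 2^{-i}) = 0.2887...`.

The condition `(C_{-m})` says that the class group of `ℚ(√-m)` has no element of order four (Rédei).
The natural density is from the library: `Pool/Agent/N916/GB` (helper916, helper218, helper958 and
others), which rests on `Pool/Agent/N973/ND` and `Pool/Agent/Y703`. The basic facts on corestrictions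
are from `Pool/Agent/R384`. The new part is in `Pool/Agent/N848/Q`.
-/

set_option autoImplicit false

namespace Pool.Agent.Results.MP_59f3ad_nt.QuadraticFieldsNaturalDensity

/-! ### Galois groups -/

/-- An algebraic closure of `ℚ`. -/
abbrev QBar : Type := AlgebraicClosure ℚ

/-- The absolute Galois group of `ℚ`. The one of a subfield `L` of `ℚ̄` is `L.fixingSubgroup`. -/
abbrev Gal : Type := QBar ≃ₐ[ℚ] QBar

/-! ### The Tate twists and the Tate–Shafarevich groups -/

/-- The `2`-adic cyclotomic character. -/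
noncomputable def cyc : Gal →* ℤ_[2]ˣ :=
  (cyclotomicCharacter QBar 2).comp (MulSemiringAction.toRingAut Gal QBar)

/-- The `2`-adic integer by which `σ` acts on `ℤ_2(r)`, that is, the `r`-th power of the value of
the cyclotomic character. -/
noncomputable def tate (r : ℤ) (σ : Gal) : ℤ_[2] := (((cyc σ) ^ r : ℤ_[2]ˣ) : ℤ_[2])

/-- The decomposition group of the place of `ℚ̄` given by the embedding `ι`. Its intersection with
the absolute Galois group of `L` is the decomposition group of a place of `L` above `p`, and all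
places are obtained from the embeddings `ι`. -/
def Dec {p : ℕ} [Fact p.Prime] (ι : QBar →ₐ[ℚ] PadicAlgCl p) : Set Gal :=
  {σ | ∃ τ : PadicAlgCl p ≃ₐ[ℚ_[p]] PadicAlgCl p, ∀ x, τ (ι x) = ι (σ x)}

/-- Its inertia group: the automorphisms which are trivial on the residue field. -/
def Inr {p : ℕ} [Fact p.Prime] (ι : QBar →ₐ[ℚ] PadicAlgCl p) : Set Gal :=
  {σ | ∃ τ : PadicAlgCl p ≃ₐ[ℚ_[p]] PadicAlgCl p, (∀ x, τ (ι x) = ι (σ x)) ∧
    ∀ z : PadicAlgCl p, ‖z‖ ≤ 1 → ‖τ z - z‖ < 1}

section

variable {L : IntermediateField ℚ QBar}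

/-- The continuous cocycles of the absolute Galois group of `L` with values in `ℤ_2(r)`. -/
structure IsCocycle (r : ℤ) (c : ↥L.fixingSubgroup → ℤ_[2]) : Prop where
  cont : Continuous c
  mul : ∀ σ τ, c (σ * τ) = c σ + tate r (σ : Gal) * c τ

/-- The restriction of `c` to the subset `S` is a coboundary with values in `ℤ_2(r)`. -/
def TrivialOn (r : ℤ) (S : Set Gal) (c : ↥L.fixingSubgroup → ℤ_[2]) : Prop :=
  ∃ z : ℤ_[2], ∀ σ : ↥L.fixingSubgroup, (σ : Gal) ∈ S → c σ = (tate r (σ : Gal) - 1) * z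

/-- The cocycles of the elements of the groups `Ш¹(O_{L,S}, ℤ_2(r))`: they vanish on the inertia
groups of the places prime to `2` (on which the cyclotomic character is trivial), because their
classes are unramified outside `S` and locally trivial at the places of `S`, and their restrictions
to the decomposition groups of the places above `2` are coboundaries. -/
structure InSha (r : ℤ) (c : ↥L.fixingSubgroup → ℤ_[2]) : Prop where
  odd : ∀ (p : ℕ) [Fact p.Prime] (ι : QBar →ₐ[ℚ] PadicAlgCl p), p ≠ 2 →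
    ∀ σ : ↥L.fixingSubgroup, (σ : Gal) ∈ Inr ι → c σ = 0
  two : ∀ ι : QBar →ₐ[ℚ] PadicAlgCl 2, TrivialOn r (Dec ι) c

end

/-- `Ш¹(O_{L,S}, ℤ_2(r)) = 0` for all `S`. -/
def ShaZero (L : IntermediateField ℚ QBar) (r : ℤ) : Prop :=
  ∀ c : ↥L.fixingSubgroup → ℤ_[2], IsCocycle r c → InSha r c → TrivialOn r Set.univ c

/-! ### The fields and the condition -/

/-- The field generated by the square roots of the elements of `A`. -/
noncomputable def SqrtField (A : Finset ℤ) : IntermediateField ℚ QBar :=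
  IntermediateField.adjoin ℚ {x | ∃ a ∈ A, x ^ 2 = (a : QBar)}

/-- The condition `(C_e)`: the only factorization `e = a b` with `a = 1` modulo `8`, with `a > 0` if
`e > 0`, such that `a` is a square modulo the odd prime divisors of `b` and `b` is a square modulo
the odd prime divisors of `a`, is the one with `a = 1`. -/
def Cond (e : ℤ) : Prop := ∀ a b : ℤ, e = a * b → a % 8 = 1 → (0 < e → 0 < a) →
  (∀ q : ℕ, q.Prime → q ≠ 2 → (((q : ℤ) ∣ b → IsSquare (a : ZMod q)) ∧
    ((q : ℤ) ∣ a → IsSquare (b : ZMod q)))) → a = 1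

/-- The squarefree parts `e` of the products of the elements of the subsets of `A` satisfy `(C_e)` if
`r` is even and `(C_{-e})` if `r` is odd. -/
def Good (A : Finset ℤ) (r : ℤ) : Prop :=
  ∀ T ⊆ A, ∀ e f : ℤ, ∏ a ∈ T, a = e * f ^ 2 → Squarefree e →
    (Even r → Cond e) ∧ (Odd r → Cond (-e))

/-- `Ш¹(O_{L,S}, ℤ_2(r)) = 0` for all `S`, all `r ≠ 0` and all subfields `L` of `ℚ(√-1, √m)`. -/
def Full (m : ℕ) : Prop :=
  ∀ r : ℤ, r ≠ 0 → ∀ L : IntermediateField ℚ QBar, L ≤ SqrtField {-1, (m : ℤ)} → ShaZero L r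

/-- `Ш¹(O_{L,S}, ℤ_2(r)) = 0` for all `S`, for `L = ℚ(√m)` and all odd `r` and for `L = ℚ(√-m)` and
all even `r ≠ 0`. -/
def Half (m : ℕ) : Prop :=
  (∀ r : ℤ, Odd r → ShaZero (SqrtField {(m : ℤ)}) r) ∧
    ∀ r : ℤ, Even r → r ≠ 0 → ShaZero (SqrtField {-(m : ℤ)}) r

/-- The number of the squarefree `m` in the interval `[1, X]` whose class modulo `8` is in `K` and
with the property `P`. -/
noncomputable def count (K : Finset ℕ) (P : ℕ → Prop) (X : ℕ) : ℝ :=
  (({m | 1 ≤ m ∧ m ≤ X ∧ Squarefree m ∧ m % 8 ∈ K ∧ P m} : Set ℕ).ncard : ℝ)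

/-! ### The proof -/

section proof

open Pool.Agent.N848.Q

/-- fields and groups -/
lemma fix_eq (A : Finset ℤ) (s : ℤ → QBar) (hs : ∀ a ∈ A, s a ^ 2 = a) :
    (SqrtField A).fixingSubgroup = fixs s A := by
  ext σ
  rw [IntermediateField.mem_fixingSubgroup_iff]
  constructor
  · intro h a ha
    exact h (s a) (IntermediateField.subset_adjoin ℚ _ ⟨a, ha, hs a ha⟩)
  · intro h x hx
    have h1 : SqrtField A ≤ IntermediateField.fixedField (Subgroup.zpowers σ) := by
      unfold SqrtField
      rw [IntermediateField.adjoin_le_iff]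
      rintro y ⟨a, ha, hy⟩
      rw [SetLike.mem_coe, IntermediateField.mem_fixedField_iff]
      intro τ hτ
      obtain ⟨k, rfl⟩ := hτ
      have h3 : y = s a ∨ y = -s a := sq_eq_sq_iff_eq_or_eq_neg.1 (by rw [hy, hs a ha])
      have h2 : σ ∈ MulAction.stabilizer Gal y := by
        show σ y = y
        rcases h3 with rfl | rfl
        · exact h a ha
        · rw [map_neg, h a ha]
      exact (MulAction.stabilizer Gal y).zpow_mem h2 k
    exact (IntermediateField.mem_fixedField_iff _ x).1 (h1 hx) σ (Subgroup.mem_zpowers σ)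

theorem one (A : Finset ℤ) (h0 : (0 : ℤ) ∉ A) (r : ℤ) (hr : r ≠ 0) (hG : Good A r)
    (L : IntermediateField ℚ QBar) (hL : L ≤ SqrtField A) : ShaZero L r := by
  classical
  intro c hc hsha
  -- the square roots
  have hex : ∀ a : ℤ, ∃ x : QBar, x ^ 2 = if a = 0 then 1 else (a : QBar) := fun a =>
    IsAlgClosed.exists_pow_nat_eq _ (by norm_num)
  choose s hs using hex
  have hs0 : ∀ a, s a ≠ 0 := by
    intro a h
    have h1 := hs a
    rw [h] at h1
    split_ifs at h1 with h2
    · norm_num at h1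
    · apply h2
      have h3 : (a : QBar) = 0 := by rw [← h1]; ring
      exact_mod_cast h3
  have hsA : ∀ a ∈ A, s a ^ 2 = a := by
    intro a ha
    rw [hs a, if_neg]
    rintro rfl
    exact h0 ha
  have hor : ∀ a (σ : G), σ (s a) = s a ∨ σ (s a) = -s a := by
    intro a σ
    refine root_or' (a := if a = 0 then 1 else a) ?_ σ
    rw [hs a]
    split_ifs <;> simp
  have hle : fixs s A ≤ L.fixingSubgroup := by
    rw [← fix_eq A s hsA]
    exact IntermediateField.fixingSubgroup_antitone hL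
  have hn : (fixs s A).Normal := by
    refine ⟨fun σ hσ τ a ha => ?_⟩
    have h1 := hσ a ha
    rcases hor a τ⁻¹ with h2 | h2
    · rw [AlgEquiv.mul_apply, AlgEquiv.mul_apply, h2, h1]
      have h3 := congrArg τ h2
      rw [← AlgEquiv.mul_apply, mul_inv_cancel, AlgEquiv.one_apply] at h3
      exact h3.symm
    · rw [AlgEquiv.mul_apply, AlgEquiv.mul_apply, h2, map_neg, h1]
      have h3 := congrArg τ h2
      rw [← AlgEquiv.mul_apply, mul_inv_cancel, AlgEquiv.one_apply] at h3
      exact h3.symm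
  have hsq : ∀ σ : G, σ * σ ∈ fixs s A := by
    intro σ a _
    rw [AlgEquiv.mul_apply]
    rcases hor a σ with h | h
    · rw [h, h]
    · rw [h, map_neg, h, neg_neg]
  obtain ⟨z, hz⟩ := descend hle hn hr hsq (van_mq hs0 hor A hsA r hG) c hc.cont hc.mul
    (fun p _ ι hp σ hσ => hsha.odd p ι hp σ hσ) (fun ι => hsha.two ι)
  exact ⟨z, fun σ _ => hz σ⟩

lemma good_single {d : ℤ} (hd : Squarefree d) {r : ℤ} (hE : Even r → Cond d)
    (hO : Odd r → Cond (-d)) : Good {d} r := by
  intro T hT e f hef he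
  have hd0 : d ≠ 0 := hd.ne_zero
  rcases Finset.subset_singleton_iff.1 hT with rfl | rfl
  · rw [Finset.prod_empty] at hef
    have h1 : IsUnit e := isUnit_of_dvd_one ⟨f ^ 2, hef⟩
    rcases Int.isUnit_iff.1 h1 with rfl | rfl
    · exact ⟨fun _ => crit_unit (Or.inl rfl), fun _ => crit_unit (Or.inr rfl)⟩
    · exact ⟨fun _ => crit_unit (Or.inr rfl), fun _ => crit_unit (Or.inl (by norm_num))⟩
  · rw [Finset.prod_singleton] at hef
    have h1 : IsUnit f := hd f ⟨e, by rw [hef]; ring⟩
    have h2 : f ^ 2 = 1 := by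
      rcases Int.isUnit_iff.1 h1 with rfl | rfl <;> norm_num
    rw [h2, mul_one] at hef
    rw [← hef]
    exact ⟨hE, hO⟩

lemma good_pair {m : ℕ} (hm : Squarefree m) (h1 : Cond (m : ℤ)) (h2 : Cond (-(m : ℤ))) (r : ℤ) :
    Good {-1, (m : ℤ)} r := by
  have hsq : Squarefree (m : ℤ) := Int.squarefree_natCast.2 hm
  intro T hT e f hef he
  have hm0 : (m : ℤ) ≠ 0 := hsq.ne_zero
  -- the product is `± 1` or `± m`
  have h3 : ∏ a ∈ T, a = 1 ∨ ∏ a ∈ T, a = -1 ∨ ∏ a ∈ T, a = (m : ℤ) ∨ ∏ a ∈ T, a = -(m : ℤ) := by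
    by_cases ha : (-1 : ℤ) ∈ T <;> by_cases hb : (m : ℤ) ∈ T
    · right; right; right
      have e1 : T = {-1, (m : ℤ)} := Finset.Subset.antisymm hT (by
        intro x hx
        rcases Finset.mem_insert.1 hx with rfl | hx
        · exact ha
        · rw [Finset.mem_singleton.1 hx]; exact hb)
      rw [e1, Finset.prod_pair (by omega)]
      ring
    · right; left
      have e1 : T = {-1} := by
        ext x
        rw [Finset.mem_singleton]
        constructor
        · intro hx
          rcases Finset.mem_insert.1 (hT hx) with h | h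
          · exact h
          · rw [Finset.mem_singleton.1 h] at hx; exact absurd hx hb
        · rintro rfl; exact ha
      rw [e1, Finset.prod_singleton]
    · right; right; left
      have e1 : T = {(m : ℤ)} := by
        ext x
        rw [Finset.mem_singleton]
        constructor
        · intro hx
          rcases Finset.mem_insert.1 (hT hx) with h | h
          · rw [h] at hx; exact absurd hx ha
          · exact Finset.mem_singleton.1 h
        · rintro rfl; exact hb
      rw [e1, Finset.prod_singleton]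
    · left
      have e1 : T = ∅ := by
        rw [Finset.eq_empty_iff_forall_notMem]
        intro x hx
        rcases Finset.mem_insert.1 (hT hx) with h | h
        · rw [h] at hx; exact ha hx
        · rw [Finset.mem_singleton.1 h] at hx; exact hb hx
      rw [e1, Finset.prod_empty]
  have hsqf : ∀ d : ℤ, Squarefree d → d = e * f ^ 2 → e = d := by
    intro d hd h
    have h1 : IsUnit f := hd f ⟨e, by rw [h]; ring⟩
    have h2 : f ^ 2 = 1 := by
      rcases Int.isUnit_iff.1 h1 with rfl | rfl <;> norm_num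
    rw [h2, mul_one] at h
    exact h.symm
  have hneg : Squarefree (-(m : ℤ)) := by
    rw [← Int.squarefree_natAbs, Int.natAbs_neg, Int.natAbs_natCast]
    exact hm
  rcases h3 with h | h | h | h <;> rw [h] at hef
  · rw [hsqf 1 squarefree_one hef]
    exact ⟨fun _ => crit_unit (Or.inl rfl), fun _ => crit_unit (Or.inr rfl)⟩
  · rw [hsqf (-1) (by rw [← Int.squarefree_natAbs]; simp) hef]
    exact ⟨fun _ => crit_unit (Or.inr rfl), fun _ => crit_unit (Or.inl (by norm_num))⟩
  · rw [hsqf _ hsq hef]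
    exact ⟨fun _ => h1, fun _ => h2⟩
  · rw [hsqf _ hneg hef, neg_neg]
    exact ⟨fun _ => h2, fun _ => h1⟩

theorem full {m : ℕ} (hm : Squarefree m) (h1 : Cond (m : ℤ)) (h2 : Cond (-(m : ℤ))) : Full m := by
  intro r hr L hL
  refine one {-1, (m : ℤ)} ?_ r hr (good_pair hm h1 h2 r) L hL
  intro h
  have h3 := hm.ne_zero
  rcases Finset.mem_insert.1 h with h | h
  · norm_num at h
  · have h4 := Finset.mem_singleton.1 h
    exact h3 (by exact_mod_cast h4.symm)

theorem half {m : ℕ} (hm : Squarefree m) (h2 : Cond (-(m : ℤ))) : Half m := by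
  have hsq : Squarefree (m : ℤ) := Int.squarefree_natCast.2 hm
  have hneg : Squarefree (-(m : ℤ)) := by
    rw [← Int.squarefree_natAbs, Int.natAbs_neg, Int.natAbs_natCast]
    exact hm
  constructor
  · intro r hr
    have hr0 : r ≠ 0 := by
      rintro rfl
      exact absurd hr (by decide)
    refine one {(m : ℤ)} ?_ r hr0 (good_single hsq (fun h => ?_) (fun _ => h2)) _ le_rfl
    · rw [Finset.mem_singleton]
      exact hsq.ne_zero.symm
    · exact absurd hr (Int.not_odd_iff_even.2 h)
  · intro r hr hr0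
    refine one {-(m : ℤ)} ?_ r hr0 (good_single hneg (fun _ => h2) (fun h => ?_)) _ le_rfl
    · rw [Finset.mem_singleton]
      exact hneg.ne_zero.symm
    · exact absurd h (Int.not_odd_iff_even.2 hr)

open scoped Classical in
lemma count_eq (K : Finset ℕ) (P : ℕ → Prop) (X : ℕ) :
    count K P X = ∑ k ∈ K, (Cc k P X : ℝ) := by
  have e : ({m | 1 ≤ m ∧ m ≤ X ∧ Squarefree m ∧ m % 8 ∈ K ∧ P m} : Set ℕ) =
      (((Finset.Icc 1 X).filter fun m => Squarefree m ∧ m % 8 ∈ K ∧ P m : Finset ℕ) : Set ℕ) := by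
    ext m
    simp only [Set.mem_ofPred_eq, Finset.coe_filter, Finset.mem_Icc]
    tauto
  unfold count
  rw [e, Set.ncard_coe_finset, Finset.card_eq_sum_card_fiberwise (f := fun m => m % 8) (t := K)
    (fun m hm => by
      rw [Finset.mem_coe, Finset.mem_filter] at hm
      exact hm.2.2.1)]
  push_cast
  refine Finset.sum_congr rfl fun k hk => ?_
  unfold Cc
  congr 2
  ext m
  rw [Finset.mem_filter, Finset.mem_filter, Finset.mem_filter]
  constructor
  · rintro ⟨⟨h1, h2, h3, h4⟩, h5⟩
    exact ⟨h1, h2, h5, h4⟩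
  · rintro ⟨h1, h2, h3, h4⟩
    exact ⟨⟨h1, h2, by rw [h3]; exact hk, h4⟩, h3⟩

lemma count_single (k : ℕ) (P : ℕ → Prop) (X : ℕ) : count {k} P X = Cc k P X := by
  rw [count_eq, Finset.sum_singleton]

theorem dens (k : ℕ) (hk : k ∈ ({1, 2, 3, 5, 6} : Finset ℕ)) :
    Filter.Tendsto (fun X : ℕ => count {k} (fun m => Cond (-(m : ℤ))) X /
      count {k} (fun _ => True) X) Filter.atTop (nhds (∏' i : ℕ, (1 - (1 / 2 : ℝ) ^ (i + 1)))) := by
  have hk' : k = 1 ∨ k = 2 ∨ k = 3 ∨ k = 5 ∨ k = 6 := by simpa using hk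
  refine (dens_all hk').congr fun X => ?_
  rw [count_single, count_single]
  rfl

open scoped Classical in
theorem prop (K : Finset ℕ) (hK : K ⊆ {1, 2, 3, 5, 6}) (P : ℕ → Prop)
    (hP : ∀ m : ℕ, Squarefree m → m % 8 ∈ K → Cond (-(m : ℤ)) → P m) :
    ∃ X₀ : ℕ, ∀ X : ℕ, X₀ ≤ X → 0.2887 * count K (fun _ => True) X ≤ count K P X := by
  have h1 : ∀ k ∈ K, ∀ᶠ X : ℕ in Filter.atTop,
      0.2887 * (Cc k (fun _ => True) X : ℝ) ≤ (Cc k P X : ℝ) := by
    intro k hk
    have h2 := (dens k (hK hk)).eventually_const_lt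
      (Pool.Agent.N916.GB.eta_bounds.1 : (0.2887 : ℝ) < ∏' i : ℕ, (1 - (1 / 2 : ℝ) ^ (i + 1)))
    filter_upwards [h2] with X hX
    rw [count_single, count_single] at hX
    have h3 : (Cc k (fun m => Cond (-(m : ℤ))) X : ℝ) ≤ Cc k P X := by
      unfold Cc
      refine Nat.cast_le.2 (Finset.card_le_card fun m hm => ?_)
      rw [Finset.mem_filter] at hm ⊢
      exact ⟨hm.1, hm.2.1, hm.2.2.1, hP m hm.2.1 (by rw [hm.2.2.1]; exact hk) hm.2.2.2⟩
    have h4 : (0 : ℝ) ≤ (Cc k (fun _ => True) X : ℝ) := Nat.cast_nonneg _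
    rcases h4.lt_or_eq with h5 | h5
    · rw [lt_div_iff₀ h5] at hX
      linarith
    · rw [← h5, mul_zero]
      exact Nat.cast_nonneg _
  have h2 : ∀ᶠ X : ℕ in Filter.atTop, ∀ k ∈ K,
      0.2887 * (Cc k (fun _ => True) X : ℝ) ≤ (Cc k P X : ℝ) := by
    rw [Finset.eventually_all]
    exact h1
  obtain ⟨X₀, hX₀⟩ := Filter.eventually_atTop.1 h2
  refine ⟨X₀, fun X hX => ?_⟩
  rw [count_eq, count_eq, Finset.mul_sum]
  exact Finset.sum_le_sum (hX₀ X hX)

end proof

/-- **Schneider's conjecture for `p = 2` and all twists.** -/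
theorem result :
    (∀ A : Finset ℤ, (0 : ℤ) ∉ A → ∀ r : ℤ, r ≠ 0 → Good A r →
      ∀ L : IntermediateField ℚ QBar, L ≤ SqrtField A → ShaZero L r) ∧
    (∀ m : ℕ, Squarefree m → Cond (-(m : ℤ)) → Half m ∧
      (m % 8 ∈ ({2, 3, 5, 6} : Finset ℕ) → Cond (m : ℤ) ∧ Full m)) ∧
    (∀ k ∈ ({1, 2, 3, 5, 6} : Finset ℕ),
      Filter.Tendsto (fun X : ℕ => count {k} (fun m => Cond (-(m : ℤ))) X /
        count {k} (fun _ => True) X) Filter.atTop
        (nhds (∏' i : ℕ, (1 - (1 / 2 : ℝ) ^ (i + 1))))) ∧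
    (∃ X₀ : ℕ, ∀ X : ℕ, X₀ ≤ X →
      0.2887 * count {1, 2, 3, 5, 6} (fun _ => True) X ≤ count {1, 2, 3, 5, 6} Half X) ∧
    ∃ X₀ : ℕ, ∀ X : ℕ, X₀ ≤ X →
      0.2887 * count {2, 3, 5, 6} (fun _ => True) X ≤ count {2, 3, 5, 6} Full X := by
  have key : ∀ m : ℕ, Squarefree m → m % 8 ∈ ({2, 3, 5, 6} : Finset ℕ) → Cond (-(m : ℤ)) →
      Cond (m : ℤ) := by
    intro m hm h8 h
    exact Pool.Agent.N848.Q.crit_pos_of_neg hm (by simpa using h8) h
  refine ⟨fun A h0 r hr hG L hL => one A h0 r hr hG L hL, fun m hm h => ⟨half hm h, fun h8 =>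
    ⟨key m hm h8 h, full hm (key m hm h8 h) h⟩⟩, dens, ?_, ?_⟩
  · exact prop _ (Finset.Subset.refl _) _ fun m hm _ h => half hm h
  · exact prop _ (by decide) _ fun m hm h8 h => full hm (key m hm h8 h) h

end Pool.Agent.Results.MP_59f3ad_nt.QuadraticFieldsNaturalDensity
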