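import Mathlib
import Pool.Agent.N848.SK.Oct
import Pool.Agent.N848.SK.Crit
import Pool.Agent.N848.SK.Dens
import Pool.Agent.N848.AW.AlgS
import Pool.Agent.N916.GB.Num

/-!
# Schneider's conjecture for `p = 2` and all twists: the fields `K(√D)` and `K(√-1, √D)`, `K = ℚ(√-7)`

`K = ℚ(√-7)` has the ring of integers `ℤ[ω]`, `ω² = ω - 2`, and `2 = ω (1 - ω)`. For `m` in `ℤ[ω]` let
`(C_m)` be the following condition: the only factorizations `m = a b` in `ℤ[ω]` such that `a` is
congruent to `1` or to `m` modulo `ω³`, and to `1` or to `m` modulo `(1 - ω)³`, `a` is a square modulo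
all prime divisors of `b` and `b` is a square modulo all prime divisors of `a`, are those with `a = 1`
or `a = m`.

`D` is in the class if it is squarefree, congruent to `5` modulo `8` and prime to `√-7`. There is no
condition on the number of the prime divisors. In general the fields `K(√D)` are not normal over `ℚ`.

Theorem 1. Let `D` be in the class.
(a) If `(C_D)` holds then `Ш¹(O_{L,S}, ℤ_2(r)) = 0` for all even `r ≠ 0`, all `S` and all subfields `L`
of the quartic field `K(√D)`.
(b) If `(C_{-D})` holds then `Ш¹(O_{L,S}, ℤ_2(r)) = 0` for all odd `r`, all `S` and all subfields `L`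
of `K(√D)`.
(c) If `(C_D)` and `(C_{-D})` hold then `Ш¹(O_{L,S}, ℤ_2(r)) = 0` for **all** `r ≠ 0`, all `S` and all
subfields `L` of the field `K(√-1, √D)` of degree `8`.

Theorem 2. Let `η = ∏_{i ≥ 1} (1 - 2^(-i)) = 0.2887...`. In the class, ordered by the norm, the natural
density of `(C_D)` is exactly `2 η = 0.577...`, the one of `(C_{-D})` is `2 η` and the one of both
conditions is `3/2 η = 0.433...`. The class has positive lower density in `ℤ[ω]`.

Proof of Theorem 1. A normalised cocycle over `K` of the twist of `ℤ_2(r)` by the quadratic character of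
`D` has a reduction modulo `2`, which is given by an element `δ` of `K` up to squares; locally `δ` is
`1` or `m`, `m = D` for even `r` and `m = -D` for odd `r`, at the prime divisors of `m` and at both
places above `2`, and `(C_m)` implies that `δ` is `1` or `m`. The other twists which occur are unramified
outside `2`. Theorem 2: the conditions are systems of linear equations over `𝔽_2` for the quadratic
residue symbols of the prime divisors of `D`; see `Pool/Agent/N848/SK/Stm.lean` and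
`Pool/Agent/N848/AW/Stm.lean`.

The density is joint work of this team: helper618 (law with one more equation), helper82, helper265,
helper413, helper364 (the systems), helper749 (boxes), helper163, helper499, helper765 (factorizations
and symbols), on the basis of the projects AW (helper849, helper691, helper279, helper701, helper615,
helper568, helper169, helper402, helper34, helper763, helper27) and QK (helper426). The basic facts on
corestrictions and Kummer theory over `K` are from `Pool/Agent/R384`.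
-/

set_option autoImplicit false

open scoped Classical

namespace Pool.Agent.Results.MP_59f3ad_nt.QuarticFieldsNaturalDensity

/-! ### Galois groups -/

/-- An algebraic closure of `ℚ`. -/
abbrev QBar : Type := AlgebraicClosure ℚ

/-- The absolute Galois group of `ℚ`. The one of a subfield `L` of `ℚ̄` is `L.fixingSubgroup`. -/
abbrev Gal : Type := QBar ≃ₐ[ℚ] QBar

/-! ### The Tate twists and the Tate–Shafarevich groups -/

/-- The `2`-adic cyclotomic character. -/
noncomputable def cyc : Gal →* ℤ_[2]ˣ :=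
  (cyclotomicCharacter QBar 2).comp (MulSemiringAction.toRingAut Gal QBar)

/-- The `2`-adic integer by which `σ` acts on `ℤ_2(r)`, that is, the `r`-th power of the value of
the cyclotomic character. -/
noncomputable def tate (r : ℤ) (σ : Gal) : ℤ_[2] := (((cyc σ) ^ r : ℤ_[2]ˣ) : ℤ_[2])

/-- The decomposition group of the place of `ℚ̄` given by the embedding `ι`. Its intersection with
the absolute Galois group of `L` is the decomposition group of a place of `L` above `p`, and all
places are obtained from the embeddings `ι`. -/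
def Dec {p : ℕ} [Fact p.Prime] (ι : QBar →ₐ[ℚ] PadicAlgCl p) : Set Gal :=
  {σ | ∃ τ : PadicAlgCl p ≃ₐ[ℚ_[p]] PadicAlgCl p, ∀ x, τ (ι x) = ι (σ x)}

/-- Its inertia group: the automorphisms which are trivial on the residue field. -/
def Inr {p : ℕ} [Fact p.Prime] (ι : QBar →ₐ[ℚ] PadicAlgCl p) : Set Gal :=
  {σ | ∃ τ : PadicAlgCl p ≃ₐ[ℚ_[p]] PadicAlgCl p, (∀ x, τ (ι x) = ι (σ x)) ∧
    ∀ z : PadicAlgCl p, ‖z‖ ≤ 1 → ‖τ z - z‖ < 1}

section

variable {L : IntermediateField ℚ QBar}

/-- The continuous cocycles of the absolute Galois group of `L` with values in `ℤ_2(r)`. -/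
structure IsCocycle (r : ℤ) (c : ↥L.fixingSubgroup → ℤ_[2]) : Prop where
  cont : Continuous c
  mul : ∀ σ τ, c (σ * τ) = c σ + tate r (σ : Gal) * c τ

/-- The restriction of `c` to the subset `S` is a coboundary with values in `ℤ_2(r)`. -/
def TrivialOn (r : ℤ) (S : Set Gal) (c : ↥L.fixingSubgroup → ℤ_[2]) : Prop :=
  ∃ z : ℤ_[2], ∀ σ : ↥L.fixingSubgroup, (σ : Gal) ∈ S → c σ = (tate r (σ : Gal) - 1) * z

/-- The cocycles of the elements of the groups `Ш¹(O_{L,S}, ℤ_2(r))`: they vanish on the inertia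
groups of the places prime to `2` (on which the cyclotomic character is trivial), because their
classes are unramified outside `S` and locally trivial at the places of `S`, and their restrictions
to the decomposition groups of the places above `2` are coboundaries. -/
structure InSha (r : ℤ) (c : ↥L.fixingSubgroup → ℤ_[2]) : Prop where
  odd : ∀ (p : ℕ) [Fact p.Prime] (ι : QBar →ₐ[ℚ] PadicAlgCl p), p ≠ 2 →
    ∀ σ : ↥L.fixingSubgroup, (σ : Gal) ∈ Inr ι → c σ = 0
  two : ∀ ι : QBar →ₐ[ℚ] PadicAlgCl 2, TrivialOn r (Dec ι) c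

end

/-- `Ш¹(O_{L,S}, ℤ_2(r)) = 0` for all `S`. -/
def ShaZero (L : IntermediateField ℚ QBar) (r : ℤ) : Prop :=
  ∀ c : ↥L.fixingSubgroup → ℤ_[2], IsCocycle r c → InSha r c → TrivialOn r Set.univ c

/-! ### The fields -/

/-- The ring of integers `ℤ[ω]`, `ω² = ω - 2`, of `K = ℚ(√-7)`. -/
abbrev OK : Type := QuadraticAlgebra ℤ (-2) 1

/-- The element `a + b ω` of `ℤ[ω]` as an element of `ℚ̄`, `w` being the image of `ω`. -/
noncomputable def emb (w : QBar) (z : OK) : QBar := z.re + z.im * w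

/-- The field generated over `K = ℚ(w)` by the square roots of the elements of `A`. -/
noncomputable def SqrtField (w : QBar) (A : Set OK) : IntermediateField ℚ QBar :=
  IntermediateField.adjoin ℚ ({w} ∪ {x | ∃ a ∈ A, x ^ 2 = emb w a})

/-- `Ш¹(O_{L,S}, ℤ_2(r)) = 0` for all `S` and all subfields `L` of `K(√a : a ∈ A)`. -/
def ShaZeroBelow (w : QBar) (A : Set OK) (r : ℤ) : Prop :=
  ∀ L : IntermediateField ℚ QBar, L ≤ SqrtField w A → ShaZero L r

/-! ### The conditions -/

/-- The element `√-7 = 2 ω - 1`. -/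
def sqrtNegSeven : OK := ⟨-1, 2⟩

/-- The element `ω`. -/
def omega : OK := ⟨0, 1⟩

/-- The class: `D` is squarefree, congruent to `5` modulo `8`, and `√-7` does not divide `D`. -/
def InClass (D : OK) : Prop := Squarefree D ∧ (8 : OK) ∣ D - 5 ∧ ¬ sqrtNegSeven ∣ D

/-- The condition `(C_m)`: the only factorizations `m = a b` such that `a` is congruent to `1` or `m`
modulo `ω³` and modulo `(1 - ω)³`, `a` is a square modulo the prime divisors of `b` and `b` is a square
modulo the prime divisors of `a`, are those with `a = 1` or `a = m`. -/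
def Cond (m : OK) : Prop := ∀ a b : OK, m = a * b →
  (omega ^ 3 ∣ a - 1 ∨ omega ^ 3 ∣ a - m) →
  ((1 - omega) ^ 3 ∣ a - 1 ∨ (1 - omega) ^ 3 ∣ a - m) →
  (∀ p : OK, Prime p → (p ∣ b → ∃ y, p ∣ a - y ^ 2) ∧ (p ∣ a → ∃ y, p ∣ b - y ^ 2)) →
  a = 1 ∨ a = m

/-- The norm of `a + b ω`. -/
def nrmOK (D : OK) : ℤ := D.re ^ 2 + D.re * D.im + 2 * D.im ^ 2

/-- The number of the `D` of the class with norm at most `X` and with the property `P`. -/
noncomputable def count (P : OK → Prop) (X : ℕ) : ℕ :=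
  {D : OK | nrmOK D ≤ X ∧ InClass D ∧ P D}.ncard

/-- The property `P` has the natural density `y` in the class. -/
def HasDensity (P : OK → Prop) (y : ℝ) : Prop :=
  Filter.Tendsto (fun X : ℕ => (count P X : ℝ) / (count (fun _ => True) X : ℝ)) Filter.atTop (nhds y)

/-- The product `(1 - 1/2) (1 - 1/4) (1 - 1/8) ⋯`. -/
noncomputable def eta : ℝ := ∏' i : ℕ, (1 - (1 / 2 : ℝ) ^ (i + 1))

/-! ### The proof -/

section crit

open Pool.Agent.R426 Pool.Agent.R426.QK
open Pool.Agent.N848.AW (Cls5)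
open Pool.Agent.N848.W (th th_om th_s7 e_dvd e_prime e_sqf)
open Pool.Agent.Y698 (RR cX cY aR cj fR)

lemma cls_th {D : OK} : Cls5 (th D) ↔ InClass D := by
  rw [Pool.Agent.N848.AW.cls5_th]
  rfl

/-- the condition in the two models -/
lemma cond_th {m : OK} : Pool.Agent.N848.SK.Cond (th m) ↔ Cond m := by
  have e1 : th omega = aR := th_om
  have e2 : th (1 - omega) = cj aR := Pool.Agent.N848.AW.th_om'
  constructor
  · intro h a b hab h1 h2 h3
    have key : ∀ (ϖ : OK), (ϖ ^ 3 ∣ a - 1 ∨ ϖ ^ 3 ∣ a - m) →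
        (th ϖ ^ 3 ∣ th a - 1 ∨ th ϖ ^ 3 ∣ th a - th m) := by
      intro ϖ hϖ
      rcases hϖ with h4 | h4
      · left
        rw [← map_one th, ← map_sub, ← map_pow, e_dvd]
        exact h4
      · right
        rw [← map_sub, ← map_pow, e_dvd]
        exact h4
    have k1 := key _ h1
    have k2 := key _ h2
    rw [e1] at k1
    rw [e2] at k2
    rcases h (th a) (th b) (by rw [hab, map_mul]) k1 k2 (fun π hπ => by
      obtain ⟨p, rfl⟩ := th.surjective π
      obtain ⟨g1, g2⟩ := h3 p ((e_prime th).1 hπ)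
      constructor
      · intro hd
        obtain ⟨y, hy⟩ := g1 ((e_dvd th).1 hd)
        refine ⟨th y, ?_⟩
        rw [← map_pow, ← map_sub, e_dvd]
        exact hy
      · intro hd
        obtain ⟨y, hy⟩ := g2 ((e_dvd th).1 hd)
        refine ⟨th y, ?_⟩
        rw [← map_pow, ← map_sub, e_dvd]
        exact hy) with h4 | h4
    · exact Or.inl (th.injective (by rw [h4, map_one]))
    · exact Or.inr (th.injective h4)
  · intro h a b hab h1 h2 h3
    obtain ⟨a, rfl⟩ := th.surjective a
    obtain ⟨b, rfl⟩ := th.surjective b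
    rw [← e1] at h1
    rw [← e2] at h2
    have key : ∀ (ϖ : OK), (th ϖ ^ 3 ∣ th a - 1 ∨ th ϖ ^ 3 ∣ th a - th m) →
        (ϖ ^ 3 ∣ a - 1 ∨ ϖ ^ 3 ∣ a - m) := by
      intro ϖ hϖ
      rcases hϖ with h4 | h4
      · left
        rw [← map_one th, ← map_sub, ← map_pow, e_dvd] at h4
        exact h4
      · right
        rw [← map_sub, ← map_pow, e_dvd] at h4
        exact h4
    rcases h a b (th.injective (by rw [hab, map_mul])) (key _ h1) (key _ h2) (fun p hp => by
      obtain ⟨g1, g2⟩ := h3 (th p) ((e_prime th).2 hp)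
      constructor
      · intro hd
        obtain ⟨y, hy⟩ := g1 ((e_dvd th).2 hd)
        obtain ⟨y, rfl⟩ := th.surjective y
        rw [← map_pow, ← map_sub, e_dvd] at hy
        exact ⟨y, hy⟩
      · intro hd
        obtain ⟨y, hy⟩ := g2 ((e_dvd th).2 hd)
        obtain ⟨y, rfl⟩ := th.surjective y
        rw [← map_pow, ← map_sub, e_dvd] at hy
        exact ⟨y, hy⟩) with h4 | h4
    · exact Or.inl (by rw [h4, map_one])
    · exact Or.inr (by rw [h4])

lemma norm_th (D : OK) : (nrm (th D) : ℤ) = nrmOK D := by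
  have h1 : cX (th D) = D.re := by
    have := Pool.Agent.N848.W.th_symm (th D)
    rw [th.symm_apply_apply] at this
    exact (congrArg QuadraticAlgebra.re this).symm
  have h2 : cY (th D) = D.im := by
    have := Pool.Agent.N848.W.th_symm (th D)
    rw [th.symm_apply_apply] at this
    exact (congrArg QuadraticAlgebra.im this).symm
  rw [nrm_eq', h1, h2]
  rfl

lemma count_th (P : OK → Prop) (Q : RR → Prop) (h : ∀ D : OK, (P D ↔ Q (th D)))
    (X : ℕ) : count P X = {D : RR | nrm D ≤ X ∧ Cls5 D ∧ Q D}.ncard := by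
  unfold count
  rw [← Set.ncard_image_of_injective _ th.injective]
  congr 1
  ext D
  simp only [Set.mem_ofPred_eq, Set.mem_image]
  constructor
  · rintro ⟨E, ⟨h1, h2, h3⟩, rfl⟩
    refine ⟨?_, cls_th.2 h2, (h E).1 h3⟩
    rw [← norm_th] at h1
    exact_mod_cast h1
  · rintro ⟨h1, h2, h3⟩
    have h4 : InClass (th.symm D) := by
      rw [← cls_th, th.apply_symm_apply]
      exact h2
    refine ⟨th.symm D, ⟨?_, h4, ?_⟩, th.apply_symm_apply D⟩
    · rw [← norm_th, th.apply_symm_apply]
      exact_mod_cast h1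
    · rw [h, th.apply_symm_apply]
      exact h3

/-- the densities -/
lemma dens_of {P : OK → Prop} {Q : RR → Prop} {y : ℝ} (h : ∀ D : OK, (P D ↔ Q (th D)))
    (hQ : ((Q = fun D => Pool.Agent.N848.SK.Cond D) ∧ y = 2 * c2 ∨
      (Q = fun D => Pool.Agent.N848.SK.Cond (-D)) ∧ y = 2 * c2 ∨
      (Q = fun D => Pool.Agent.N848.SK.Cond D ∧ Pool.Agent.N848.SK.Cond (-D)) ∧
        y = 3 / 2 * c2)) : HasDensity P y := by
  have h1 := Pool.Agent.N848.SK.t_DENS Q y hQ
  unfold HasDensity
  refine h1.congr fun X => ?_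
  rw [count_th P Q h, count_th (fun _ => True) (fun _ => True) (fun _ => Iff.rfl)]
  congr 2
  congr 1
  ext D
  simp only [Set.mem_ofPred_eq, and_true]

end crit

section fields

open Pool.Agent.N848.SK.G

variable {w : QBar} (hw : w ^ 2 = w - 2)

lemma emb_eq (z : OK) : emb w z = Pool.Agent.R384.em hw z := by
  unfold emb
  rw [Pool.Agent.R384.em_apply]

/-- the conditions on the class -/
lemma clD {D : OK} (hD : InClass D) : ClD D := ⟨hD.1, hD.2.1, hD.2.2⟩

lemma algC_pos {D : OK} (hD : InClass D) (h : Cond D) : AlgC D :=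
  algC_of hD.1 (Or.inl hD.2.1) h

lemma algC_neg {D : OK} (hD : InClass D) (h : Cond (-D)) : AlgC (-D) := by
  obtain ⟨h1, h2, -⟩ := (clD hD).neg
  exact algC_of h1 h2 h

/-- the Galois groups -/
lemma fix_le {n : ℕ} {s : Fin n → QBar} {A : Set OK}
    (hA : ∀ a ∈ A, ∃ i, s i ^ 2 = emb w a) : fixG w s ≤ (SqrtField w A).fixingSubgroup := by
  intro σ hσ
  rw [IntermediateField.mem_fixingSubgroup_iff]
  intro x hx
  have h1 : SqrtField w A ≤ IntermediateField.fixedField (Subgroup.zpowers σ) := by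
    unfold SqrtField
    rw [IntermediateField.adjoin_le_iff]
    have key : ∀ y : QBar, σ y = y →
        y ∈ (IntermediateField.fixedField (Subgroup.zpowers σ) : IntermediateField ℚ QBar) := by
      intro y hy
      rw [IntermediateField.mem_fixedField_iff]
      intro τ hτ
      obtain ⟨k, rfl⟩ := hτ
      have h2 : σ ∈ MulAction.stabilizer Gal y := hy
      exact (MulAction.stabilizer Gal y).zpow_mem h2 k
    rintro y (rfl | ⟨a, ha, hy⟩)
    · exact key y hσ.1
    · apply key
      obtain ⟨i, hi⟩ := hA a ha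
      rcases sq_eq_sq_iff_eq_or_eq_neg.1 (hy.trans hi.symm) with h2 | h2
      · rw [h2]
        exact hσ.2 i
      · rw [h2, map_neg]
        exact congrArg Neg.neg (hσ.2 i)
  exact (IntermediateField.mem_fixedField_iff _ x).1 (h1 hx) σ (Subgroup.mem_zpowers σ)

/-- the descent to the subfields -/
lemma below {n : ℕ} {s : Fin n → QBar} {E : Fin n → OK}
    (hE : ∀ i, s i ^ 2 = Pool.Agent.R384.em hw (E i)) {A : Set OK}
    (hA : ∀ a ∈ A, ∃ i, s i ^ 2 = emb w a) {r : ℤ} (hr : r ≠ 0)
    (van : VanT hw (cK w ^ r) (Pool.Agent.R384.fixs s Finset.univ)) : ShaZeroBelow w A r := by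
  intro L hL c hc hs
  have h1 : fixG w s ≤ L.fixingSubgroup :=
    (fix_le hA).trans (IntermediateField.fixingSubgroup_antitone hL)
  obtain ⟨z, hz⟩ := shaK hw hE hr van h1 c hc.cont hc.mul
    (fun p _ ι hp σ hσ => hs.odd p ι hp σ hσ) (fun ι => hs.two ι)
  exact ⟨z, fun σ _ => hz σ⟩

/-- the quartic field -/
lemma quad (hw : w ^ 2 = w - 2) {D : OK} (hD : InClass D) {r : ℤ} (hr : r ≠ 0)
    (hE : Even r → Cond D) (hO : Odd r → Cond (-D)) : ShaZeroBelow w {D} r := by
  obtain ⟨s, hs⟩ : ∃ s : QBar, s ^ 2 = Pool.Agent.R384.em hw D :=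
    IsAlgClosed.exists_pow_nat_eq _ (by norm_num)
  obtain ⟨I, hI⟩ : ∃ I : QBar, I ^ 2 = -1 := IsAlgClosed.exists_pow_nat_eq _ (by norm_num)
  refine below hw (s := fun _ : Fin 1 => s) (E := fun _ => D) (fun _ => hs) ?_ hr
    (van_quad hw (clD hD) hs hI r (fun h => algC_pos hD (hE h)) fun h => algC_neg hD (hO h))
  rintro a rfl
  exact ⟨0, by rw [emb_eq hw]; exact hs⟩

/-- the field of degree eight -/
lemma oct (hw : w ^ 2 = w - 2) {D : OK} (hD : InClass D) {r : ℤ} (hr : r ≠ 0)
    (hE : Cond D) (hO : Cond (-D)) : ShaZeroBelow w {-1, D} r := by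
  obtain ⟨s, hs⟩ : ∃ s : QBar, s ^ 2 = Pool.Agent.R384.em hw D :=
    IsAlgClosed.exists_pow_nat_eq _ (by norm_num)
  obtain ⟨I, hI⟩ : ∃ I : QBar, I ^ 2 = -1 := IsAlgClosed.exists_pow_nat_eq _ (by norm_num)
  have hI' : I ^ 2 = Pool.Agent.R384.em hw (-1) := by rw [hI, map_neg, map_one]
  refine below hw (s := two I s) (E := ![-1, D]) ?_ ?_ hr
    (van_biq hw (clD hD) hs hI r (algC_pos hD hE) (algC_neg hD hO))
  · intro i
    fin_cases i
    · exact hI'
    · exact hs
  · rintro a (rfl | rfl)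
    · exact ⟨0, by rw [emb_eq hw]; exact hI'⟩
    · exact ⟨1, by rw [emb_eq hw]; exact hs⟩

end fields

lemma eta_eq : eta = Pool.Agent.R426.QK.c2 := rfl

/-- from the density to the numbers of fields -/
lemma many {P Q : OK → Prop} {y z : ℝ} (h : HasDensity P y) (hz : z < y)
    (hPQ : ∀ D, InClass D → P D → Q D) (hfin : ∀ X : ℕ, {D : OK | nrmOK D ≤ X}.Finite) :
    ∃ X₀ : ℕ, ∀ X : ℕ, X₀ ≤ X → z * count (fun _ => True) X ≤ count Q X := by
  have h1 := h.eventually_const_lt hz
  obtain ⟨X₀, h2⟩ := Filter.eventually_atTop.1 h1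
  refine ⟨X₀, fun X hX => ?_⟩
  have h3 := h2 X hX
  have h4 : count P X ≤ count Q X := by
    unfold count
    refine Set.ncard_le_ncard ?_ ((hfin X).subset fun D hD => hD.1)
    rintro D ⟨a, b, c⟩
    exact ⟨a, b, hPQ D b c⟩
  have h5 : (0 : ℝ) ≤ (count (fun _ => True) X : ℝ) := Nat.cast_nonneg _
  have h6 : (count P X : ℝ) ≤ count Q X := by exact_mod_cast h4
  rcases h5.lt_or_eq with h7 | h7
  · rw [lt_div_iff₀ h7] at h3
    linarith
  · rw [← h7, mul_zero]
    exact Nat.cast_nonneg _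

lemma finite_norm (X : ℕ) : {D : OK | nrmOK D ≤ X}.Finite := by
  have h1 : Set.InjOn (fun D : OK => (D.re, D.im)) {D : OK | nrmOK D ≤ X} := by
    intro a _ b _ hab
    have h2 := congrArg Prod.fst hab
    have h3 := congrArg Prod.snd hab
    exact QuadraticAlgebra.ext h2 h3
  refine Set.Finite.of_finite_image ?_ h1
  refine ((Set.finite_Icc (-(2 * X : ℤ)) (2 * X)).prod (Set.finite_Icc (-(X : ℤ)) X)).subset ?_
  rintro _ ⟨D, hD, rfl⟩
  have h2 : nrmOK D ≤ X := hD
  unfold nrmOK at h2
  have hX : (0 : ℤ) ≤ X := Int.natCast_nonneg X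
  have h3 : 7 * D.im ^ 2 ≤ 4 * X := by nlinarith [sq_nonneg (2 * D.re + D.im)]
  have h4 : 7 * D.re ^ 2 ≤ 8 * X := by nlinarith [sq_nonneg (D.re + 4 * D.im)]
  simp only [Set.mem_prod, Set.mem_Icc]
  refine ⟨⟨?_, ?_⟩, ?_, ?_⟩ <;> nlinarith

/-- **Schneider's conjecture for `p = 2`, all twists, the fields `K(√D)` and `K(√-1, √D)`.** -/
theorem result (w : QBar) (hw : w ^ 2 = w - 2) :
    (∀ D : OK, InClass D →
      (Cond D → ∀ r : ℤ, Even r → r ≠ 0 → ShaZeroBelow w {D} r) ∧
      (Cond (-D) → ∀ r : ℤ, Odd r → ShaZeroBelow w {D} r) ∧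
      (Cond D → Cond (-D) → ∀ r : ℤ, r ≠ 0 → ShaZeroBelow w {-1, D} r)) ∧
    HasDensity Cond (2 * eta) ∧ HasDensity (fun D => Cond (-D)) (2 * eta) ∧
    HasDensity (fun D => Cond D ∧ Cond (-D)) (3 / 2 * eta) ∧
    (∃ X₀ : ℕ, ∀ X : ℕ, X₀ ≤ X → (0.577 : ℝ) * count (fun _ => True) X ≤
      count (fun D => ∀ r : ℤ, Even r → r ≠ 0 → ShaZeroBelow w {D} r) X) ∧
    (∃ X₀ : ℕ, ∀ X : ℕ, X₀ ≤ X → (0.577 : ℝ) * count (fun _ => True) X ≤
      count (fun D => ∀ r : ℤ, Odd r → ShaZeroBelow w {D} r) X) ∧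
    (∃ X₀ : ℕ, ∀ X : ℕ, X₀ ≤ X → (0.433 : ℝ) * count (fun _ => True) X ≤
      count (fun D => ∀ r : ℤ, r ≠ 0 → ShaZeroBelow w {-1, D} r) X) ∧
    ∃ c : ℝ, 0 < c ∧ ∀ᶠ X : ℕ in Filter.atTop, c * X ≤ count (fun _ => True) X := by
  have d1 : HasDensity Cond (2 * eta) :=
    dens_of (Q := fun D => Pool.Agent.N848.SK.Cond D) (fun D => cond_th.symm)
      (Or.inl ⟨rfl, rfl⟩)
  have d2 : HasDensity (fun D => Cond (-D)) (2 * eta) :=
    dens_of (Q := fun D => Pool.Agent.N848.SK.Cond (-D)) (fun D => by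
      rw [← map_neg]
      exact cond_th.symm) (Or.inr (Or.inl ⟨rfl, rfl⟩))
  have d3 : HasDensity (fun D => Cond D ∧ Cond (-D)) (3 / 2 * eta) :=
    dens_of (Q := fun D => Pool.Agent.N848.SK.Cond D ∧ Pool.Agent.N848.SK.Cond (-D))
      (fun D => by
        rw [← map_neg]
        exact and_congr cond_th.symm cond_th.symm) (Or.inr (Or.inr ⟨rfl, rfl⟩))
  have hb : (0.2887 : ℝ) < eta := Pool.Agent.N916.GB.eta_bounds.1
  have t1 : ∀ D : OK, InClass D → Cond D → ∀ r : ℤ, Even r → r ≠ 0 → ShaZeroBelow w {D} r :=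
    fun D hD h r hr hr0 => quad hw hD hr0 (fun _ => h)
      fun ho => absurd hr (Int.not_even_iff_odd.2 ho)
  have t2 : ∀ D : OK, InClass D → Cond (-D) → ∀ r : ℤ, Odd r → ShaZeroBelow w {D} r :=
    fun D hD h r hr => quad hw hD (by
      rintro rfl
      exact absurd hr (by decide)) (fun he => absurd hr (Int.not_odd_iff_even.2 he)) fun _ => h
  have t3 : ∀ D : OK, InClass D → Cond D ∧ Cond (-D) → ∀ r : ℤ, r ≠ 0 →
      ShaZeroBelow w {-1, D} r := fun D hD h r hr => oct hw hD hr h.1 h.2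
  refine ⟨fun D hD => ⟨t1 D hD, t2 D hD, fun h1 h2 => t3 D hD ⟨h1, h2⟩⟩, d1, d2, d3,
    many d1 (by linarith) t1 finite_norm, many d2 (by linarith) t2 finite_norm,
    many d3 (by linarith) t3 finite_norm, ?_⟩
  obtain ⟨c, X₀, hc, h⟩ := Pool.Agent.N34.AW.LOW.t_LOW5
  refine ⟨c, hc, ?_⟩
  filter_upwards [Filter.eventually_ge_atTop X₀] with X hX
  have h1 := h X hX
  have h2 := Pool.Agent.N763.AW.card_eq Pool.Agent.N763.AW.t_CLS X (fun _ => True)
  rw [Finset.filter_true] at h2
  rw [count_th (fun _ => True) (fun _ => True) (fun _ => Iff.rfl), h2]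
  exact h1

end Pool.Agent.Results.MP_59f3ad_nt.QuarticFieldsNaturalDensity
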